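import Pool.Agent.helper506_cf.Graph

/-!
# The classes of the vertices and the meaning of stability
-/

set_option autoImplicit false

namespace Pool.Agent.helper506_cf

open Finset

/-- Digits are unique. -/
theorem digits_unique {B : ℕ} (hB : 1 ≤ B) : ∀ (N : ℕ) (a b : ℕ → ℕ),
    (∀ j < N, a j < B) → (∀ j < N, b j < B) →
    (B : ℤ) ^ N ∣ ∑ j ∈ range N, (a j : ℤ) * (B : ℤ) ^ j - ∑ j ∈ range N, (b j : ℤ) * (B : ℤ) ^ j →
    ∀ j < N, a j = b j := by
  intro N
  induction N with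
  | zero => intro a b _ _ _ j hj; omega
  | succ N ih =>
    intro a b ha hb h j hj
    have e1 : ∀ c : ℕ → ℕ, ∑ j ∈ range (N + 1), (c j : ℤ) * (B : ℤ) ^ j =
        (B : ℤ) * ∑ j ∈ range N, (c (j + 1) : ℤ) * (B : ℤ) ^ j + c 0 := by
      intro c
      rw [sum_range_succ', mul_sum]
      congr 1
      · refine sum_congr rfl fun i _ => ?_
        ring
      · simp
    rw [e1, e1] at h
    have h0 : a 0 = b 0 := by
      have h1 : (B : ℤ) ∣ (a 0 : ℤ) - b 0 := by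
        have h2 : (B : ℤ) ∣ (B : ℤ) ^ (N + 1) := dvd_pow_self _ (by omega)
        have h3 := h2.trans h
        have h4 : (B : ℤ) ∣ (B : ℤ) * ∑ j ∈ range N, (a (j + 1) : ℤ) * (B : ℤ) ^ j -
            (B : ℤ) * ∑ j ∈ range N, (b (j + 1) : ℤ) * (B : ℤ) ^ j :=
          dvd_sub (dvd_mul_right _ _) (dvd_mul_right _ _)
        have h5 := dvd_sub h3 h4
        have h6 : (a 0 : ℤ) - b 0 = ((B : ℤ) * ∑ j ∈ range N, (a (j + 1) : ℤ) * (B : ℤ) ^ j +
            (a 0 : ℤ) - ((B : ℤ) * ∑ j ∈ range N, (b (j + 1) : ℤ) * (B : ℤ) ^ j + (b 0 : ℤ))) -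
            ((B : ℤ) * ∑ j ∈ range N, (a (j + 1) : ℤ) * (B : ℤ) ^ j -
            (B : ℤ) * ∑ j ∈ range N, (b (j + 1) : ℤ) * (B : ℤ) ^ j) := by ring
        rw [h6]
        exact h5
      have h2 := ha 0 (by omega)
      have h3 := hb 0 (by omega)
      have h5 : (a 0 : ℤ) % B = (b 0 : ℤ) % B :=
        Int.emod_eq_emod_iff_emod_sub_eq_zero.2 (Int.emod_eq_zero_of_dvd h1)
      rw [Int.emod_eq_of_lt (by positivity) (by exact_mod_cast h2),
        Int.emod_eq_of_lt (by positivity) (by exact_mod_cast h3)] at h5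
      exact_mod_cast h5
    cases j with
    | zero => exact h0
    | succ j =>
      refine ih (fun j => a (j + 1)) (fun j => b (j + 1)) (fun j hj => ha _ (by omega))
        (fun j hj => hb _ (by omega)) ?_ j (by omega)
      have h1 : (B : ℤ) ^ (N + 1) ∣ (B : ℤ) * (∑ j ∈ range N, (a (j + 1) : ℤ) * (B : ℤ) ^ j -
          ∑ j ∈ range N, (b (j + 1) : ℤ) * (B : ℤ) ^ j) := by
        rw [h0] at h
        refine (h.trans (Dvd.intro 1 ?_))
        ring
      rw [pow_succ'] at h1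
      exact Int.dvd_of_mul_dvd_mul_left (by omega) h1

namespace Par

/-- the classes of the vertices of the chain -/
def gg (P : Par) : ℕ → ℤ
  | 0 => -1
  | k + 1 => (P.B : ℤ) * gg P k + P.e k

/-- the classes of the vertices -/
def G (P : Par) (v : ℕ) : ℤ := if v < P.B then 0 else P.gg (v - P.B)

theorem gg_eq (P : Par) (k : ℕ) : P.gg k =
    -(P.B : ℤ) ^ k + ∑ i ∈ range k, (P.e (k - 1 - i) : ℤ) * (P.B : ℤ) ^ i := by
  induction k with
  | zero => simp [gg]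
  | succ k ih =>
    rw [gg, ih, sum_range_succ', mul_add, mul_sum]
    have h1 : ∀ i ∈ range k, (P.B : ℤ) * ((P.e (k - 1 - i) : ℤ) * (P.B : ℤ) ^ i) =
        (P.e (k + 1 - 1 - (i + 1)) : ℤ) * (P.B : ℤ) ^ (i + 1) := by
      intro i _
      have : k + 1 - 1 - (i + 1) = k - 1 - i := by omega
      rw [this]
      ring
    rw [sum_congr rfl h1]
    simp
    ring

variable {P : Par}

theorem gg_small (h : P.Good) {k : ℕ} (hk : k ≤ P.N) : P.gg k = -(P.B : ℤ) ^ k := by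
  rw [gg_eq, add_eq_left]
  refine sum_eq_zero fun i hi => ?_
  rw [mem_range] at hi
  rw [h.e_zero (by omega)]
  simp

theorem gg_large {k : ℕ} (hk : P.N ≤ k) : (P.B : ℤ) ^ P.N ∣
    P.gg k - ∑ i ∈ range P.N, (P.e (k - 1 - i) : ℤ) * (P.B : ℤ) ^ i := by
  rw [gg_eq, ← sum_range_add_sum_Ico _ hk]
  have h1 : (P.B : ℤ) ^ P.N ∣ (P.B : ℤ) ^ k := pow_dvd_pow _ hk
  have h2 : (P.B : ℤ) ^ P.N ∣ ∑ i ∈ Ico P.N k, (P.e (k - 1 - i) : ℤ) * (P.B : ℤ) ^ i := by
    refine dvd_sum fun i hi => ?_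
    rw [mem_Ico] at hi
    exact (pow_dvd_pow _ hi.1).mul_left _
  have h3 := dvd_sub h2 h1
  refine h3.trans (Dvd.intro 1 ?_)
  ring

theorem gg_last (h : P.Good) : (P.B : ℤ) ^ P.N ∣ P.gg (P.L + 1) := by
  have h1 := gg_large (P := P) (k := P.L + 1) (by have := h.hNL; omega)
  have h2 : ∑ i ∈ range P.N, (P.e (P.L + 1 - 1 - i) : ℤ) * (P.B : ℤ) ^ i = 0 := by
    refine sum_eq_zero fun i hi => ?_
    rw [mem_range] at hi
    have := h.hNL
    rw [h.e_zero' (by omega)]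
    simp
  rw [h2, sub_zero] at h1
  exact h1

theorem G_lt {v : ℕ} (hv : v < P.B) : P.G v = 0 := if_pos hv

theorem G_chain (k : ℕ) : P.G (P.B + k) = P.gg k := by
  unfold G
  rw [if_neg (by omega), Nat.add_sub_cancel_left]

theorem hom (h : P.Good) {v : ℕ} (hv : v < P.n) : (P.B : ℤ) ^ P.N ∣
    (P.dg v : ℤ) * P.G v - ∑ w ∈ range P.n, (P.arc v w : ℤ) * P.G w := by
  have hB := h.hB
  have hN := h.hN
  have hNL := h.hNL
  have e1 : ∑ w ∈ range P.n, (P.arc v w : ℤ) * P.G w =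
      ∑ w ∈ range P.n, P.arc v w • P.G w := by simp
  rw [e1]
  by_cases h0 : v = 0
  · subst h0
    rw [out_zero h, G_lt (by omega), G_chain, gg_small h le_rfl]
    simp
  · by_cases h1 : v < P.B
    · rw [out_copy _ (by omega) h1, G_lt h1, G_lt (by omega)]
      simp
    · obtain ⟨k, rfl⟩ := Nat.exists_eq_add_of_le (not_lt.1 h1)
      have hk : k ≤ P.L := by unfold n at hv; omega
      have h2 : ∑ r ∈ Ico 1 (P.B - P.e k), P.G r = 0 := by
        refine sum_eq_zero fun r hr => ?_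
        rw [mem_Ico] at hr
        exact G_lt (by omega)
      have h3 : P.G P.B = -1 := by
        have := G_chain (P := P) 0
        rw [add_zero] at this
        rw [this, gg]
      have h4 : P.dg (P.B + k) = P.B := if_neg (by omega)
      rw [out_chain (by omega) _ hk, h2, h3, h4, G_chain]
      rcases Nat.lt_or_ge k P.L with hkL | hkL
      · rw [nx_lt hkL, show P.B + k + 1 = P.B + (k + 1) from rfl, G_chain, gg]
        simp
      · have : k = P.L := by omega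
        subst this
        have h5 : P.e P.L = 0 := h.e_zero' (by omega)
        have h6 := gg_last h
        rw [gg, h5] at h6
        rw [nx_last, G_lt (by omega), h5]
        simpa using h6

theorem Lap_eq (h : P.Good) (f : Fin P.n → ℤ) (f' : ℕ → ℤ) (hf : ∀ v : Fin P.n, f v = f' v)
    (v : Fin P.n) : Lap P.mm f v =
      (P.dg v : ℤ) * f' v - ∑ u ∈ range P.n, (P.arc u v : ℤ) * f' u := by
  rw [Lap_apply, outDeg_eq h, hf]
  congr 1
  rw [← Fin.sum_univ_eq_sum_range (fun u => (P.arc u v : ℤ) * f' u) P.n]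
  exact sum_congr rfl fun u _ => by rw [hf]; rfl

theorem dvd_Lap (h : P.Good) (f : Fin P.n → ℤ) :
    (P.B : ℤ) ^ P.N ∣ ∑ v, Lap P.mm f v * P.G v := by
  have h1 : ∑ v, Lap P.mm f v * P.G v = ∑ w, f w * ((P.dg w : ℤ) * P.G w -
      ∑ v ∈ range P.n, (P.arc w v : ℤ) * P.G v) := by
    simp only [Lap_apply, sub_mul, mul_sub, sum_sub_distrib]
    congr 1
    · refine sum_congr rfl fun v _ => ?_
      rw [outDeg_eq h]
      ring
    · simp only [sum_mul, mul_sum]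
      rw [sum_comm]
      refine sum_congr rfl fun w _ => ?_
      rw [← Fin.sum_univ_eq_sum_range (fun v => f w * ((P.arc w v : ℤ) * P.G v)) P.n]
      refine sum_congr rfl fun v _ => ?_
      show (P.arc w v : ℤ) * f w * P.G v = _
      ring
  rw [h1]
  exact dvd_sum fun w _ => (hom h w.2).mul_left _

/-- the slack of the initial distribution -/
def bb (P : Par) (v : ℕ) : ℤ := (P.dg v : ℤ) - 1 - P.y v

theorem y_zero : P.y 0 = ((P.L + 1 : ℕ) : ℤ) * ((P.B : ℤ) - 1) - P.S -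
    ∑ k ∈ range (P.L + 1), (P.yd k : ℤ) := if_pos rfl

theorem y_copy {r : ℕ} (hr : 1 ≤ r) (hr' : r < P.B) : P.y r = 0 := by
  unfold y
  rw [if_neg (by omega), if_pos hr']

theorem y_chain (h : P.Good) (k : ℕ) : P.y (P.B + k) = P.yd k := by
  have hB := h.hB
  unfold y
  rw [if_neg (by omega), if_neg (by omega), Nat.add_sub_cancel_left]

theorem sum_bb (h : P.Good) : ∑ v ∈ range P.n, P.bb v = P.S := by
  have hB := h.hB
  rw [sum_n (by omega)]
  have h1 : ∑ r ∈ Ico 1 P.B, P.bb r = 0 := by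
    refine sum_eq_zero fun r hr => ?_
    rw [mem_Ico] at hr
    unfold bb dg
    rw [y_copy hr.1 hr.2, if_pos hr.2]
    simp
  have h2 : ∑ k ∈ range (P.L + 1), P.bb (P.B + k) =
      ((P.L + 1 : ℕ) : ℤ) * ((P.B : ℤ) - 1) - ∑ k ∈ range (P.L + 1), (P.yd k : ℤ) := by
    have h3 : ∀ k ∈ range (P.L + 1), P.bb (P.B + k) = ((P.B : ℤ) - 1) - P.yd k := by
      intro k _
      unfold bb dg
      rw [y_chain h, if_neg (by omega)]
    rw [sum_congr rfl h3, sum_sub_distrib]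
    simp
    ring
  rw [h1, h2]
  unfold bb dg
  rw [y_zero, if_pos (by omega)]
  push_cast
  ring

theorem sum_bbG (h : P.Good) : (P.B : ℤ) ^ P.N ∣ ∑ v ∈ range P.n, P.bb v * P.G v -
    ∑ j ∈ range P.N, (P.T j : ℤ) * (P.B : ℤ) ^ j := by
  have hB := h.hB
  have hN := h.hN
  have hNL := h.hNL
  have hS := h.hS
  rw [sum_n (by omega)]
  have h1 : ∑ r ∈ Ico 1 P.B, P.bb r * P.G r = 0 := by
    refine sum_eq_zero fun r hr => ?_
    rw [mem_Ico] at hr
    rw [G_lt hr.2, mul_zero]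
  have h2 : ∑ k ∈ range (P.L + 1), P.bb (P.B + k) * P.G (P.B + k) =
      ∑ k ∈ range (P.L + 1), (P.gg (k + 1) - P.gg k - P.e k) -
        ∑ k ∈ range (P.L + 1), (P.yd k : ℤ) * P.gg k := by
    rw [← sum_sub_distrib]
    refine sum_congr rfl fun k _ => ?_
    unfold bb dg
    rw [y_chain h, if_neg (by omega), G_chain, gg]
    ring
  have h3 : ∑ k ∈ range (P.L + 1), (P.gg (k + 1) - P.gg k - P.e k) =
      P.gg (P.L + 1) + 1 - P.E := by
    rw [sum_sub_distrib, sum_range_sub]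
    unfold E
    push_cast
    rw [show P.gg 0 = -1 from rfl]
    ring
  have h4 : ∑ k ∈ range (P.L + 1), (P.yd k : ℤ) * P.gg k =
      -((P.E : ℤ) - 1) - ∑ j ∈ range P.N, (P.T j : ℤ) * (P.B : ℤ) ^ j := by
    have h5 : ∑ k ∈ range (P.L + 1), (P.yd k : ℤ) * P.gg k =
        ∑ k ∈ range P.N, (P.yd k : ℤ) * P.gg k := by
      rw [← sum_range_add_sum_Ico _ (show P.N ≤ P.L + 1 by omega), add_eq_left]
      refine sum_eq_zero fun k hk => ?_
      rw [mem_Ico] at hk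
      unfold yd
      rw [if_neg (by omega), if_neg (by omega)]
      simp
    rw [h5]
    obtain ⟨N', hN'⟩ : ∃ N', P.N = N' + 1 := ⟨P.N - 1, by omega⟩
    rw [hN', sum_range_succ', sum_range_succ']
    have h6 : ∑ k ∈ range N', (P.yd (k + 1) : ℤ) * P.gg (k + 1) =
        -∑ k ∈ range N', (P.T (k + 1) : ℤ) * (P.B : ℤ) ^ (k + 1) := by
      rw [← sum_neg_distrib]
      refine sum_congr rfl fun k hk => ?_
      rw [mem_range] at hk
      unfold yd
      rw [if_neg (by omega), if_pos (by omega), gg_small h (by omega)]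
      ring
    have h7 : (P.yd 0 : ℤ) = P.S + P.E - 1 := by
      unfold yd
      rw [if_pos rfl]
      omega
    rw [h6, h7, show P.gg 0 = -1 from rfl, h.hT0]
    ring
  rw [h1, h2, h3, h4, G_lt (by omega)]
  have h8 : P.bb 0 * 0 + 0 + (P.gg (P.L + 1) + 1 - (P.E : ℤ) -
      (-((P.E : ℤ) - 1) - ∑ j ∈ range P.N, (P.T j : ℤ) * (P.B : ℤ) ^ j)) -
      ∑ j ∈ range P.N, (P.T j : ℤ) * (P.B : ℤ) ^ j = P.gg (P.L + 1) := by ring
  rw [h8]
  exact gg_last h

/-- The combinatorial condition. -/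
def Sel (P : Par) : Prop := ∃ σ : ℕ → ℕ, ∑ k ∈ Ico P.N (P.L + 1), σ k = P.S ∧
  ∀ j < P.N, ∑ k ∈ Ico P.N (P.L + 1), σ k * P.e (k - 1 - j) = P.T j

/-- the initial distribution, on the set of vertices -/
def yy (P : Par) (v : Fin P.n) : ℤ := P.y v

theorem sel_of_stable (h : P.Good) (F : Fin P.n → ℤ) (hF : Stable P.mm (P.yy - Lap P.mm F)) :
    P.Sel := by
  have hB := h.hB
  have hN := h.hN
  have hNL := h.hNL
  obtain ⟨s, hs⟩ : ∃ s : ℕ → ℤ, ∀ v : Fin P.n, P.bb v + Lap P.mm F v = s v :=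
    ⟨fun v => if hv : v < P.n then P.bb v + Lap P.mm F ⟨v, hv⟩ else 0, fun v => by simp⟩
  have hs0 : ∀ v < P.n, 0 ≤ s v := by
    intro v hv
    have h1 := hF ⟨v, hv⟩
    have h2 := hs ⟨v, hv⟩
    rw [outDeg_eq h] at h1
    simp only [Pi.sub_apply] at h1 h2
    unfold bb at h2
    have h3 : P.yy ⟨v, hv⟩ = P.y v := rfl
    rw [h3] at h1
    linarith
  have hsum : ∑ v ∈ range P.n, s v = P.S := by
    rw [← sum_bb h, ← Fin.sum_univ_eq_sum_range s, ← Fin.sum_univ_eq_sum_range P.bb]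
    have h1 : ∑ v : Fin P.n, s v = ∑ v : Fin P.n, (P.bb v + Lap P.mm F v) :=
      sum_congr rfl fun v _ => (hs v).symm
    rw [h1, sum_add_distrib, sum_Lap, add_zero]
  have hdvd : (P.B : ℤ) ^ P.N ∣ ∑ v ∈ range P.n, s v * P.G v -
      ∑ j ∈ range P.N, (P.T j : ℤ) * (P.B : ℤ) ^ j := by
    have h1 : ∑ v ∈ range P.n, s v * P.G v =
        ∑ v ∈ range P.n, P.bb v * P.G v + ∑ v, Lap P.mm F v * P.G v := by
      rw [← Fin.sum_univ_eq_sum_range (fun v => s v * P.G v),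
        ← Fin.sum_univ_eq_sum_range (fun v => P.bb v * P.G v), ← sum_add_distrib]
      refine sum_congr rfl fun v _ => ?_
      rw [← hs v]
      ring
    rw [h1]
    have h2 := dvd_add (sum_bbG h) (dvd_Lap h F)
    refine h2.trans (Dvd.intro 1 ?_)
    ring
  -- pass to natural numbers
  obtain ⟨σ, hσ⟩ : ∃ σ : ℕ → ℕ, ∀ k ≤ P.L, s (P.B + k) = σ k :=
    ⟨fun k => (s (P.B + k)).toNat, fun k hk => by
      exact (Int.toNat_of_nonneg (hs0 (P.B + k) (by unfold n; omega))).symm⟩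
  rw [sum_n (by omega)] at hsum hdvd
  have h1 : ∑ r ∈ Ico 1 P.B, s r * P.G r = 0 := by
    refine sum_eq_zero fun r hr => ?_
    rw [mem_Ico] at hr
    rw [G_lt hr.2, mul_zero]
  have h2 : 0 ≤ s 0 := hs0 0 (by unfold n; omega)
  have h3 : 0 ≤ ∑ r ∈ Ico 1 P.B, s r := by
    refine sum_nonneg fun r hr => ?_
    rw [mem_Ico] at hr
    exact hs0 r (by unfold n; omega)
  have h4 : ∑ k ∈ range (P.L + 1), s (P.B + k) =
      ((∑ k ∈ range P.N, σ k : ℕ) : ℤ) + ((∑ k ∈ Ico P.N (P.L + 1), σ k : ℕ) : ℤ) := by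
    rw [← Nat.cast_add, sum_range_add_sum_Ico _ (by omega)]
    push_cast
    refine sum_congr rfl fun k hk => ?_
    rw [mem_range] at hk
    exact hσ k (by omega)
  have hle : ∑ k ∈ range P.N, σ k + ∑ k ∈ Ico P.N (P.L + 1), σ k ≤ P.S := by
    rw [h4] at hsum
    omega
  have h5 : ∑ k ∈ range (P.L + 1), s (P.B + k) * P.G (P.B + k) =
      -∑ j ∈ range P.N, (σ j : ℤ) * (P.B : ℤ) ^ j +
        ∑ k ∈ Ico P.N (P.L + 1), (σ k : ℤ) * P.gg k := by
    rw [← sum_range_add_sum_Ico _ (show P.N ≤ P.L + 1 by omega), ← sum_neg_distrib]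
    congr 1
    · refine sum_congr rfl fun k hk => ?_
      rw [mem_range] at hk
      rw [hσ k (by omega), G_chain, gg_small h (by omega)]
      ring
    · refine sum_congr rfl fun k hk => ?_
      rw [mem_Ico] at hk
      rw [hσ k (by omega), G_chain]
  have h6 : (P.B : ℤ) ^ P.N ∣ ∑ k ∈ Ico P.N (P.L + 1), (σ k : ℤ) * P.gg k -
      ∑ j ∈ range P.N, ((∑ k ∈ Ico P.N (P.L + 1), σ k * P.e (k - 1 - j) : ℕ) : ℤ) *
        (P.B : ℤ) ^ j := by
    have h7 : ∑ j ∈ range P.N, ((∑ k ∈ Ico P.N (P.L + 1), σ k * P.e (k - 1 - j) : ℕ) : ℤ) *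
        (P.B : ℤ) ^ j = ∑ k ∈ Ico P.N (P.L + 1), (σ k : ℤ) *
          ∑ j ∈ range P.N, (P.e (k - 1 - j) : ℤ) * (P.B : ℤ) ^ j := by
      simp only [mul_sum]
      rw [sum_comm]
      refine sum_congr rfl fun j _ => ?_
      push_cast
      rw [sum_mul]
      refine sum_congr rfl fun k _ => ?_
      ring
    rw [h7, ← sum_sub_distrib]
    refine dvd_sum fun k hk => ?_
    rw [mem_Ico] at hk
    rw [← mul_sub]
    exact (gg_large hk.1).mul_left _
  have h8 : (P.B : ℤ) ^ P.N ∣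
      ∑ j ∈ range P.N, ((∑ k ∈ Ico P.N (P.L + 1), σ k * P.e (k - 1 - j) : ℕ) : ℤ) *
        (P.B : ℤ) ^ j - ∑ j ∈ range P.N, ((P.T j + σ j : ℕ) : ℤ) * (P.B : ℤ) ^ j := by
    rw [h1, h5, G_lt (by omega)] at hdvd
    have h9 := dvd_sub hdvd h6
    refine h9.trans (Dvd.intro 1 ?_)
    push_cast
    simp only [add_mul, sum_add_distrib]
    ring
  have hcol : ∀ j, ∑ k ∈ Ico P.N (P.L + 1), σ k * P.e (k - 1 - j) ≤
      ∑ k ∈ Ico P.N (P.L + 1), σ k := by
    intro j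
    refine sum_le_sum fun k _ => ?_
    calc σ k * P.e (k - 1 - j) ≤ σ k * 1 := Nat.mul_le_mul_left _ (h.he1 _)
      _ = σ k := mul_one _
  have hσj : ∀ j < P.N, σ j ≤ ∑ k ∈ range P.N, σ k := fun j hj =>
    single_le_sum (f := σ) (fun _ _ => Nat.zero_le _) (mem_range.2 hj)
  have h9 := digits_unique (show 1 ≤ P.B by omega) P.N _ _ (fun j hj => by
    have := hcol j
    omega) (fun j hj => by
    have := hσj j hj
    have := h.hT j
    omega) h8
  have h10 := h9 0 (by omega)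
  have h11 := hcol 0
  have h12 := h.hT0
  have h13 : ∑ k ∈ range P.N, σ k = 0 := by omega
  refine ⟨σ, by omega, fun j hj => ?_⟩
  rw [h9 j hj]
  have := hσj j hj
  omega

end Par

end Pool.Agent.helper506_cf
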