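import Pool.Agent.NPC.Classes

/-!
# The chip-firing game on directed graphs: halting and reachability

The definitions follow the statements of the problems word for word.
-/

set_option autoImplicit false

namespace Pool.Agent.helper506_cf

section

variable {V : Type} [Fintype V] [DecidableEq V]

/-- The out-degree of `v`, counted with multiplicity; `m v w` is the number of arcs from `v`
to `w`. -/
def outDeg (m : V → V → ℕ) (v : V) : ℕ := ∑ w, m v w

/-- Firing the vertex `v` sends one chip along each arc leaving `v`. -/
def fire (m : V → V → ℕ) (x : V → ℤ) (v : V) : V → ℤ :=
  fun w => x w - (if w = v then (outDeg m v : ℤ) else 0) + (m v w : ℤ)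

/-- One legal firing: the number of chips on the fired vertex is not negative after the move. -/
def Step (m : V → V → ℕ) (x y : V → ℤ) : Prop := ∃ v, y = fire m x v ∧ 0 ≤ y v

/-- The distribution `x` is terminating: there is no infinite legal game from `x`. -/
def Terminating (m : V → V → ℕ) (x : V → ℤ) : Prop :=
  ¬ ∃ s : ℕ → V → ℤ, s 0 = x ∧ ∀ i, Step m (s i) (s (i + 1))

/-- Some (finite) legal game starts at `x` and ends at `y`. -/
def Reaches (m : V → V → ℕ) (x y : V → ℤ) : Prop := Relation.ReflTransGen (Step m) x y

end

/-- The number of arcs from `u` to `v` in the directed multigraph with the vertices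
`0, …, n - 1` and the matrix of multiplicities `M`. -/
def mult (M : List (List ℕ)) (u v : Fin M.length) : ℕ := (M.getD u []).getD v 0

/-- `M` is the matrix of multiplicities of a finite directed multigraph without loops. -/
def IsMultigraph (M : List (List ℕ)) : Prop :=
  (∀ r ∈ M, r.length = M.length) ∧ ∀ v, mult M v v = 0

/-- `M` is the adjacency matrix of a finite simple digraph: no loops and no parallel arcs. -/
def IsSimpleDigraph (M : List (List ℕ)) : Prop := IsMultigraph M ∧ ∀ u v, mult M u v ≤ 1

/-- The chip-distribution given by a list. -/
def chips (n : ℕ) (x : List ℤ) : Fin n → ℤ := fun v => x.getD v 0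

/-- **The halting problem for simple digraphs.**  The input `(M, x)` consists of the adjacency
matrix of a finite simple digraph and of a chip-distribution `x` (in binary); the question is
whether `x` is terminating. -/
def HaltingSimple (a : List (List ℕ) × List ℤ) : Prop :=
  IsSimpleDigraph a.1 ∧ a.2.length = a.1.length ∧ Terminating (mult a.1) (chips a.1.length a.2)

/-- **The reachability problem for directed multigraphs.**  The input `(M, x, y)` consists of the
matrix of multiplicities (in binary) of a finite directed multigraph and of two
chip-distributions `x` and `y` (in binary); the question is whether some legal game leads from `x`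
to `y`. -/
def ReachMulti (a : List (List ℕ) × List ℤ × List ℤ) : Prop :=
  IsMultigraph a.1 ∧ a.2.1.length = a.1.length ∧ a.2.2.length = a.1.length ∧
    Reaches (mult a.1) (chips a.1.length a.2.1) (chips a.1.length a.2.2)

/-- **The reachability problem for simple digraphs.** -/
def ReachSimple (a : List (List ℕ) × List ℤ × List ℤ) : Prop :=
  IsSimpleDigraph a.1 ∧ a.2.1.length = a.1.length ∧ a.2.2.length = a.1.length ∧
    Reaches (mult a.1) (chips a.1.length a.2.1) (chips a.1.length a.2.2)

end Pool.Agent.helper506_cf
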