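import Pool.Agent.helper506_cf.Defs

/-!
# General facts on chip-firing
-/

set_option autoImplicit false

namespace Pool.Agent.helper506_cf

variable {V : Type} [Fintype V] [DecidableEq V]

/-- The Laplacian. -/
def Lap (m : V → V → ℕ) : (V → ℤ) →ₗ[ℤ] (V → ℤ) where
  toFun f v := (outDeg m v : ℤ) * f v - ∑ w, (m w v : ℤ) * f w
  map_add' f g := by
    funext v
    simp only [Pi.add_apply, mul_add, Finset.sum_add_distrib]
    ring
  map_smul' c f := by
    funext v
    simp only [Pi.smul_apply, smul_eq_mul, RingHom.id_apply, mul_sub, Finset.mul_sum]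
    congr 1
    · ring
    · refine Finset.sum_congr rfl fun w _ => ?_
      ring

theorem Lap_apply (m : V → V → ℕ) (f : V → ℤ) (v : V) :
    Lap m f v = (outDeg m v : ℤ) * f v - ∑ w, (m w v : ℤ) * f w := rfl

theorem Lap_single (m : V → V → ℕ) (v w : V) :
    Lap m (Pi.single v 1) w = (if w = v then (outDeg m v : ℤ) else 0) - m v w := by
  rw [Lap_apply]
  have h : ∑ u, (m u w : ℤ) * (Pi.single v 1 : V → ℤ) u = m v w := by
    rw [Finset.sum_eq_single v]
    · simp
    · intro b _ hb
      simp [Pi.single_eq_of_ne hb]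
    · simp
  rw [h]
  by_cases hw : w = v
  · subst hw
    simp
  · simp [hw, Pi.single_eq_of_ne hw]

theorem fire_eq (m : V → V → ℕ) (x : V → ℤ) (v : V) :
    fire m x v = x - Lap m (Pi.single v 1) := by
  funext w
  rw [Pi.sub_apply, Lap_single]
  unfold fire
  ring

/-- the number of chips does not change -/
theorem sum_Lap (m : V → V → ℕ) (f : V → ℤ) : ∑ v, Lap m f v = 0 := by
  simp only [Lap_apply, Finset.sum_sub_distrib, outDeg, Nat.cast_sum, Finset.sum_mul]
  rw [Finset.sum_comm, sub_self]

/-- A legal game, with the number of firings of the vertices. -/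
inductive Play (m : V → V → ℕ) (x : V → ℤ) : (V → ℤ) → (V → ℤ) → Prop
  | nil : Play m x 0 x
  | cons (u y : V → ℤ) (v : V) (h : Play m x u y) (hv : 0 ≤ fire m y v v) :
      Play m x (u + Pi.single v 1) (fire m y v)

theorem Play.trans {m : V → V → ℕ} {x y z : V → ℤ} {u w : V → ℤ} (h : Play m x u y)
    (h' : Play m y w z) : Play m x (u + w) z := by
  induction h' with
  | nil => simpa using h
  | cons w z v _ hv ih =>
    rw [← add_assoc]
    exact Play.cons _ _ _ ih hv

theorem Play.eq {m : V → V → ℕ} {x y : V → ℤ} {u : V → ℤ} (h : Play m x u y) :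
    y = x - Lap m u := by
  induction h with
  | nil => simp
  | cons u y v _ hv ih =>
    rw [fire_eq, ih, map_add]
    abel

theorem Play.nonneg {m : V → V → ℕ} {x y : V → ℤ} {u : V → ℤ} (h : Play m x u y) : 0 ≤ u := by
  induction h with
  | nil => exact le_refl _
  | cons u y v _ hv ih =>
    refine add_nonneg ih ?_
    intro w
    by_cases hw : w = v
    · subst hw
      simp
    · simp [Pi.single_eq_of_ne hw]

theorem reaches_iff {m : V → V → ℕ} {x y : V → ℤ} : Reaches m x y ↔ ∃ u, Play m x u y := by
  constructor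
  · intro h
    induction h with
    | refl => exact ⟨0, Play.nil⟩
    | tail _ hs ih =>
      obtain ⟨u, hu⟩ := ih
      obtain ⟨v, rfl, hv⟩ := hs
      exact ⟨_, Play.cons _ _ _ hu hv⟩
  · rintro ⟨u, hu⟩
    induction hu with
    | nil => exact Relation.ReflTransGen.refl
    | cons u y v _ hv ih => exact Relation.ReflTransGen.tail ih ⟨v, rfl, hv⟩

/-- stable distributions -/
def Stable (m : V → V → ℕ) (x : V → ℤ) : Prop := ∀ v, x v < outDeg m v

/-- The least action principle. -/
theorem Play.le {m : V → V → ℕ} (hm : ∀ v, m v v = 0) {x F : V → ℤ} (hF : 0 ≤ F)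
    (hs : Stable m (x - Lap m F)) {u y : V → ℤ} (h : Play m x u y) : u ≤ F := by
  induction h with
  | nil => exact hF
  | cons u y v hp hv ih =>
    intro w
    by_cases hw : w = v
    · subst hw
      rcases lt_or_eq_of_le (ih w) with h1 | h1
      · simp only [Pi.add_apply, Pi.single_eq_same]
        exact h1
      · exfalso
        have h2 := hs w
        rw [hp.eq] at hv
        unfold fire at hv
        simp only [Pi.sub_apply, if_true, hm, Nat.cast_zero, add_zero] at hv h2
        rw [Lap_apply] at hv h2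
        have h3 : ∑ t, (m t w : ℤ) * u t ≤ ∑ t, (m t w : ℤ) * F t :=
          Finset.sum_le_sum fun t _ => mul_le_mul_of_nonneg_left (ih t) (by positivity)
        rw [h1] at hv
        linarith
    · simp only [Pi.add_apply, Pi.single_eq_of_ne hw, add_zero]
      exact ih w

/-- If some multiset of firings makes `x` stable, then `x` is terminating. -/
theorem terminating_of_stable {m : V → V → ℕ} (hm : ∀ v, m v v = 0) {x F : V → ℤ} (hF : 0 ≤ F)
    (hs : Stable m (x - Lap m F)) : Terminating m x := by
  rintro ⟨s, h0, h1⟩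
  have key : ∀ i, ∃ u, Play m x u (s i) ∧ ∑ v, u v = i := by
    intro i
    induction i with
    | zero => exact ⟨0, by rw [h0]; exact Play.nil, by simp⟩
    | succ i ih =>
      obtain ⟨u, hu, hi⟩ := ih
      obtain ⟨v, hv, hv'⟩ := h1 i
      refine ⟨u + Pi.single v 1, ?_, ?_⟩
      · rw [hv] at hv' ⊢
        exact Play.cons _ _ _ hu hv'
      · simp [Finset.sum_add_distrib, hi]
  have hF' : 0 ≤ ∑ v, F v := Finset.sum_nonneg fun v _ => hF v
  obtain ⟨u, hu, hi⟩ := key ((∑ v, F v).toNat + 1)
  have h2 : ∑ v, u v ≤ ∑ v, F v := Finset.sum_le_sum fun v _ => hu.le hm hF hs v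
  rw [hi] at h2
  push_cast at h2
  omega

/-- If `x` is terminating, then some multiset of firings makes `x` stable. -/
theorem stable_of_terminating {m : V → V → ℕ} (hm : ∀ v, m v v = 0) {x : V → ℤ}
    (h : Terminating m x) : ∃ F : V → ℤ, 0 ≤ F ∧ Stable m (x - Lap m F) := by
  classical
  by_contra hno
  push Not at hno
  apply h
  have hstep : ∀ y : {y : V → ℤ // ∃ F : V → ℤ, 0 ≤ F ∧ y = x - Lap m F},
      ∃ z : {y : V → ℤ // ∃ F : V → ℤ, 0 ≤ F ∧ y = x - Lap m F}, Step m y.1 z.1 := by
    rintro ⟨y, F, hF, rfl⟩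
    have h1 := hno F hF
    unfold Stable at h1
    push Not at h1
    obtain ⟨v, hv⟩ := h1
    refine ⟨⟨fire m (x - Lap m F) v, F + Pi.single v 1, ?_, ?_⟩, v, rfl, ?_⟩
    · refine add_nonneg hF ?_
      intro w
      by_cases hw : w = v
      · subst hw
        simp
      · simp [Pi.single_eq_of_ne hw]
    · rw [fire_eq, map_add]
      abel
    · show 0 ≤ fire m (x - Lap m F) v v
      unfold fire
      simp only [Pi.sub_apply, if_true, hm, Nat.cast_zero, add_zero] at hv ⊢
      linarith
  choose nxt hnxt using hstep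
  refine ⟨fun i => (Nat.rec ⟨x, 0, le_refl _, by simp⟩ (fun _ y => nxt y) i :
    {y : V → ℤ // ∃ F : V → ℤ, 0 ≤ F ∧ y = x - Lap m F}).1, rfl, fun i => ?_⟩
  exact hnxt _

/-- A terminating distribution is not reached again. -/
theorem no_loop {m : V → V → ℕ} (hm : ∀ v, m v v = 0) {y F : V → ℤ} (hF : 0 ≤ F)
    (hs : Stable m (y - Lap m F)) {z : V} (hz : 0 ≤ fire m y z z) :
    ¬ Reaches m (fire m y z) y := by
  rw [reaches_iff]
  rintro ⟨u, hu⟩
  have h1 : Play m y (Pi.single z 1 + u) y := by
    have h2 : Play m y (0 + Pi.single z 1) (fire m y z) := Play.cons _ _ _ Play.nil hz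
    rw [zero_add] at h2
    exact h2.trans hu
  have h3 : ∀ k : ℕ, ∃ w, Play m y w y ∧ (k : ℤ) ≤ w z := by
    intro k
    induction k with
    | zero => exact ⟨0, Play.nil, by simp⟩
    | succ k ih =>
      obtain ⟨w, hw, hk⟩ := ih
      refine ⟨_, hw.trans h1, ?_⟩
      have := hu.nonneg z
      simp only [Pi.zero_apply] at this
      simp only [Pi.add_apply, Pi.single_eq_same]
      push_cast
      linarith
  obtain ⟨w, hw, hk⟩ := h3 ((F z).toNat + 1)
  have h4 : w z ≤ F z := hw.le hm hF hs z
  have h5 : 0 ≤ F z := hF z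
  push_cast at hk
  omega

/-- If there is no obstruction, then the game can be played backwards. -/
theorem reaches_of_no_obstruction {m : V → V → ℕ} (hm : ∀ v, m v v = 0) {y : V → ℤ}
    (h : ∀ u : V → ℤ, 0 ≤ u → u ≠ 0 → ∃ v, 0 < u v ∧ (outDeg m v : ℤ) ≤ (y + Lap m u) v)
    (f : V → ℤ) (hf : 0 ≤ f) : Reaches m (y + Lap m f) y := by
  have key : ∀ (k : ℕ) (f : V → ℤ), 0 ≤ f → ∑ v, f v = k → Reaches m (y + Lap m f) y := by
    intro k
    induction k with
    | zero =>
      intro f hf hk
      have h1 : f = 0 := by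
        funext v
        exact (Finset.sum_eq_zero_iff_of_nonneg fun v _ => hf v).1 (by simpa using hk) v
          (Finset.mem_univ v)
      subst h1
      simp only [map_zero, add_zero]
      exact Relation.ReflTransGen.refl
    | succ k ih =>
      intro f hf hk
      have h1 : f ≠ 0 := by
        rintro rfl
        simp at hk
        omega
      obtain ⟨v, hv, hv'⟩ := h f hf h1
      have h2 : y + Lap m (f - Pi.single v 1) = fire m (y + Lap m f) v := by
        rw [fire_eq, map_sub]
        abel
      have h3 : Reaches m (y + Lap m (f - Pi.single v 1)) y := by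
        refine ih _ ?_ ?_
        · intro w
          by_cases hw : w = v
          · subst hw
            simp only [Pi.zero_apply, Pi.sub_apply, Pi.single_eq_same]
            omega
          · simpa [Pi.single_eq_of_ne hw] using hf w
        · simp only [Pi.sub_apply, Finset.sum_sub_distrib, hk, Finset.sum_pi_single',
            Finset.mem_univ, if_true]
          push_cast
          ring
      refine Relation.ReflTransGen.head ⟨v, h2, ?_⟩ h3
      rw [h2]
      unfold fire
      simp only [if_true, hm, Nat.cast_zero, add_zero]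
      linarith
  have hnn : 0 ≤ ∑ v, f v := Finset.sum_nonneg fun v _ => hf v
  exact key (∑ v, f v).toNat f hf (by omega)

end Pool.Agent.helper506_cf
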