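import Pool.Agent.helper506_cf.Gen

/-!
# The graph

The vertices are the numbers below `B + L + 1`. The vertex `0` is the hub; the vertices
`1, …, B - 1` are copies of it; the vertices `B + k` with `k ≤ L` form the chain. The sandpile
group of the graph is cyclic of order `B ^ N` and the class of the vertex `B + k` is the number
with the digits `e (k - 1), …, e (k - N)` in base `B`.
-/

set_option autoImplicit false

namespace Pool.Agent.helper506_cf

open Finset

/-- the parameters of the construction -/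
structure Par where
  /-- number of digits -/
  N : ℕ
  /-- length of the chain -/
  L : ℕ
  /-- the base -/
  B : ℕ
  /-- the slack -/
  S : ℕ
  /-- the string of digits -/
  e : ℕ → ℕ
  /-- the target digits -/
  T : ℕ → ℕ

namespace Par

variable (P : Par)

/-- number of ones in the string -/
def E : ℕ := ∑ k ∈ range (P.L + 1), P.e k

/-- conditions on the parameters -/
structure Good : Prop where
  hN : 2 ≤ P.N
  hNL : P.N ≤ P.L
  he1 : ∀ k, P.e k ≤ 1
  he : ∀ k, P.e k = 1 → P.N ≤ k ∧ k + P.N ≤ P.L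
  hE : ∃ k, P.e k = 1
  hS : 2 ≤ P.S
  hT : ∀ j, P.T j ≤ P.S
  hT0 : P.T 0 = P.S
  hB : 2 * P.S + P.L + 4 ≤ P.B
  hSE : P.S + P.E ≤ P.L

/-- number of vertices -/
def n : ℕ := P.B + P.L + 1

/-- the next vertex of the chain -/
def nx (u : ℕ) : ℕ := if u < P.B + P.L then u + 1 else 0

/-- the arcs -/
def arc (u v : ℕ) : ℕ :=
  if u = 0 then (if v = P.B + P.N then 1 else 0)
  else if u < P.B then (if v = 0 then 1 else 0)
  else (if v = P.nx u then 1 else 0) + (if v = P.B then P.e (u - P.B) else 0) +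
    (if 1 ≤ v ∧ v < P.B - P.e (u - P.B) then 1 else 0)

/-- the digits of the initial distribution -/
def yd (k : ℕ) : ℕ := if k = 0 then P.S + P.E - 1 else if k < P.N then P.T k else 0

/-- the initial distribution -/
def y (v : ℕ) : ℤ :=
  if v = 0 then ((P.L + 1 : ℕ) : ℤ) * ((P.B : ℤ) - 1) - P.S - ∑ k ∈ range (P.L + 1), (P.yd k : ℤ)
  else if v < P.B then 0 else P.yd (v - P.B)

/-- the multiplicities, on the set of vertices -/
def mm (u v : Fin P.n) : ℕ := P.arc u v

variable {P}

theorem Good.e_zero (h : P.Good) {k : ℕ} (hk : k < P.N) : P.e k = 0 := by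
  have h1 := h.he1 k
  have h2 := h.he k
  omega

theorem Good.e_zero' (h : P.Good) {k : ℕ} (hk : P.L < k + P.N) : P.e k = 0 := by
  have h1 := h.he1 k
  have h2 := h.he k
  omega

theorem sum_n {A : Type} [AddCommMonoid A] (hB : 1 ≤ P.B) (F : ℕ → A) :
    ∑ v ∈ range P.n, F v =
      F 0 + ∑ r ∈ Ico 1 P.B, F r + ∑ k ∈ range (P.L + 1), F (P.B + k) := by
  have h1 : ∑ v ∈ range P.n, F v = ∑ v ∈ range P.B, F v + ∑ v ∈ Ico P.B P.n, F v := by
    rw [sum_range_add_sum_Ico _ (by unfold n; omega)]
  have h2 : ∑ v ∈ range P.B, F v = F 0 + ∑ r ∈ Ico 1 P.B, F r := by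
    rw [range_eq_Ico, ← sum_eq_sum_Ico_succ_bot (by omega)]
  have h3 : ∑ v ∈ Ico P.B P.n, F v = ∑ k ∈ range (P.L + 1), F (P.B + k) := by
    rw [sum_Ico_eq_sum_range]
    congr 2
    unfold n
    omega
  rw [h1, h2, h3]

theorem arc_zero (v : ℕ) : P.arc 0 v = if v = P.B + P.N then 1 else 0 := if_pos rfl

theorem arc_copy {u : ℕ} (hu : 1 ≤ u) (hu' : u < P.B) (v : ℕ) :
    P.arc u v = if v = 0 then 1 else 0 := by
  unfold arc
  rw [if_neg (by omega), if_pos hu']

theorem arc_chain (hB : 1 ≤ P.B) (k v : ℕ) : P.arc (P.B + k) v =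
    (if v = P.nx (P.B + k) then 1 else 0) + (if v = P.B then P.e k else 0) +
      (if 1 ≤ v ∧ v < P.B - P.e k then 1 else 0) := by
  unfold arc
  rw [if_neg (by omega), if_neg (by omega), Nat.add_sub_cancel_left]

theorem nx_last : P.nx (P.B + P.L) = 0 := if_neg (by omega)

theorem nx_lt {k : ℕ} (hk : k < P.L) : P.nx (P.B + k) = P.B + k + 1 := if_pos (by omega)

theorem out_zero {A : Type} [AddCommMonoid A] (h : P.Good) (a : ℕ → A) :
    ∑ v ∈ range P.n, P.arc 0 v • a v = a (P.B + P.N) := by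
  have h1 := h.hNL
  rw [sum_eq_single (P.B + P.N)]
  · simp [arc]
  · intro b _ hb
    simp [arc, hb]
  · intro hb
    exact absurd (mem_range.2 (by unfold n; omega)) hb

theorem out_copy {A : Type} [AddCommMonoid A] (a : ℕ → A) {u : ℕ} (hu : 1 ≤ u)
    (hu' : u < P.B) : ∑ v ∈ range P.n, P.arc u v • a v = a 0 := by
  rw [sum_eq_single 0]
  · simp [arc, hu', show u ≠ 0 by omega]
  · intro b _ hb
    simp [arc, hb, hu', show u ≠ 0 by omega]
  · intro hb
    exact absurd (mem_range.2 (by unfold n; omega)) hb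

theorem out_chain {A : Type} [AddCommMonoid A] (hB : 1 ≤ P.B) (a : ℕ → A) {k : ℕ}
    (hk : k ≤ P.L) : ∑ v ∈ range P.n, P.arc (P.B + k) v • a v =
      a (P.nx (P.B + k)) + P.e k • a P.B + ∑ r ∈ Ico 1 (P.B - P.e k), a r := by
  have h1 : ∀ v, P.arc (P.B + k) v • a v = (if v = P.nx (P.B + k) then a v else 0) +
      (if v = P.B then P.e k • a v else 0) + (if 1 ≤ v ∧ v < P.B - P.e k then a v else 0) := by
    intro v
    unfold arc
    rw [if_neg (by omega), if_neg (by omega), add_smul, add_smul, Nat.add_sub_cancel_left]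
    split_ifs <;> simp
  simp only [h1, sum_add_distrib]
  congr 1
  · congr 1
    · rw [sum_ite_eq', if_pos]
      rw [mem_range]
      unfold nx n
      split_ifs <;> omega
    · rw [sum_ite_eq', if_pos]
      rw [mem_range]
      unfold n
      omega
  · rw [← sum_filter]
    apply sum_congr _ fun _ _ => rfl
    ext v
    simp only [mem_filter, mem_range, mem_Ico]
    unfold n
    omega

theorem in_zero (h : P.Good) (f : ℕ → ℤ) :
    ∑ u ∈ range P.n, (P.arc u 0 : ℤ) * f u = ∑ r ∈ Ico 1 P.B, f r + f (P.B + P.L) := by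
  have hB := h.hB
  rw [sum_n (by omega)]
  have h1 : (P.arc 0 0 : ℤ) * f 0 = 0 := by
    have : P.arc 0 0 = 0 := by
      unfold arc
      rw [if_pos rfl, if_neg (by omega)]
    simp [this]
  have h2 : ∑ r ∈ Ico 1 P.B, (P.arc r 0 : ℤ) * f r = ∑ r ∈ Ico 1 P.B, f r := by
    refine sum_congr rfl fun r hr => ?_
    rw [mem_Ico] at hr
    have : P.arc r 0 = 1 := by
      unfold arc
      rw [if_neg (by omega), if_pos hr.2, if_pos rfl]
    simp [this]
  have h3 : ∑ k ∈ range (P.L + 1), (P.arc (P.B + k) 0 : ℤ) * f (P.B + k) = f (P.B + P.L) := by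
    rw [sum_eq_single P.L]
    · have : P.arc (P.B + P.L) 0 = 1 := by
        rw [arc_chain (by omega), nx_last, if_pos rfl, if_neg (by omega), if_neg (by omega)]
      simp [this]
    · intro k hk hne
      rw [mem_range] at hk
      have : P.arc (P.B + k) 0 = 0 := by
        rw [arc_chain (by omega), nx_lt (by omega), if_neg (by omega), if_neg (by omega),
          if_neg (by omega)]
      simp [this]
    · intro hb
      exact absurd (mem_range.2 (by omega)) hb
  rw [h1, h2, h3]
  ring

theorem in_copy (h : P.Good) (f : ℕ → ℤ) {w : ℕ} (hw : 1 ≤ w) (hw' : w < P.B) :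
    ∑ u ∈ range P.n, (P.arc u w : ℤ) * f u =
      ∑ k ∈ range (P.L + 1), if w < P.B - P.e k then f (P.B + k) else 0 := by
  have hB := h.hB
  rw [sum_n (by omega)]
  have h1 : (P.arc 0 w : ℤ) * f 0 = 0 := by
    have : P.arc 0 w = 0 := by
      unfold arc
      rw [if_pos rfl, if_neg (by omega)]
    simp [this]
  have h2 : ∑ r ∈ Ico 1 P.B, (P.arc r w : ℤ) * f r = 0 := by
    refine sum_eq_zero fun r hr => ?_
    rw [mem_Ico] at hr
    have : P.arc r w = 0 := by
      unfold arc
      rw [if_neg (by omega), if_pos hr.2, if_neg (by omega)]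
    simp [this]
  rw [h1, h2, zero_add, zero_add]
  refine sum_congr rfl fun k hk => ?_
  rw [mem_range] at hk
  have h3 : w ≠ P.nx (P.B + k) := by
    unfold nx
    split_ifs <;> omega
  have : P.arc (P.B + k) w = if w < P.B - P.e k then 1 else 0 := by
    rw [arc_chain (by omega), if_neg h3, if_neg (show ¬ w = P.B by omega)]
    simp [hw]
  rw [this]
  split_ifs <;> simp

theorem in_chain_zero (h : P.Good) (f : ℕ → ℤ) :
    ∑ u ∈ range P.n, (P.arc u P.B : ℤ) * f u =
      ∑ k ∈ range (P.L + 1), (P.e k : ℤ) * f (P.B + k) := by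
  have hB := h.hB
  have hN := h.hN
  rw [sum_n (by omega)]
  have h1 : (P.arc 0 P.B : ℤ) * f 0 = 0 := by
    have : P.arc 0 P.B = 0 := by
      unfold arc
      rw [if_pos rfl, if_neg (by omega)]
    simp [this]
  have h2 : ∑ r ∈ Ico 1 P.B, (P.arc r P.B : ℤ) * f r = 0 := by
    refine sum_eq_zero fun r hr => ?_
    rw [mem_Ico] at hr
    have : P.arc r P.B = 0 := by
      unfold arc
      rw [if_neg (by omega), if_pos hr.2, if_neg (by omega)]
    simp [this]
  rw [h1, h2, zero_add, zero_add]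
  refine sum_congr rfl fun k hk => ?_
  rw [mem_range] at hk
  have h3 : P.B ≠ P.nx (P.B + k) := by
    unfold nx
    split_ifs <;> omega
  have : P.arc (P.B + k) P.B = P.e k := by
    rw [arc_chain (by omega), if_neg h3, if_pos rfl, if_neg (by omega)]
    simp
  rw [this]

theorem in_chain (h : P.Good) (f : ℕ → ℤ) {k : ℕ} (hk : k < P.L) :
    ∑ u ∈ range P.n, (P.arc u (P.B + (k + 1)) : ℤ) * f u =
      f (P.B + k) + if k + 1 = P.N then f 0 else 0 := by
  have hB := h.hB
  have hN := h.hN
  rw [sum_n (by omega)]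
  have h1 : (P.arc 0 (P.B + (k + 1)) : ℤ) * f 0 = if k + 1 = P.N then f 0 else 0 := by
    unfold arc
    rw [if_pos rfl]
    by_cases hkN : k + 1 = P.N
    · rw [if_pos hkN, if_pos (by omega)]
      simp
    · rw [if_neg hkN, if_neg (by omega)]
      simp
  have h2 : ∑ r ∈ Ico 1 P.B, (P.arc r (P.B + (k + 1)) : ℤ) * f r = 0 := by
    refine sum_eq_zero fun r hr => ?_
    rw [mem_Ico] at hr
    have : P.arc r (P.B + (k + 1)) = 0 := by
      unfold arc
      rw [if_neg (by omega), if_pos hr.2, if_neg (by omega)]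
    simp [this]
  have h3 : ∑ i ∈ range (P.L + 1), (P.arc (P.B + i) (P.B + (k + 1)) : ℤ) * f (P.B + i) =
      f (P.B + k) := by
    rw [sum_eq_single k]
    · have : P.arc (P.B + k) (P.B + (k + 1)) = 1 := by
        rw [arc_chain (by omega), nx_lt hk, if_pos (by omega), if_neg (by omega),
          if_neg (by omega)]
      simp [this]
    · intro i hi hne
      rw [mem_range] at hi
      have h3 : P.B + (k + 1) ≠ P.nx (P.B + i) := by
        unfold nx
        split_ifs <;> omega
      have : P.arc (P.B + i) (P.B + (k + 1)) = 0 := by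
        rw [arc_chain (by omega), if_neg h3, if_neg (by omega), if_neg (by omega)]
      simp [this]
    · intro hb
      exact absurd (mem_range.2 (by omega)) hb
  rw [h1, h2, h3]
  ring

theorem arc_self (h : P.Good) (v : ℕ) : P.arc v v = 0 := by
  have hB := h.hB
  have hN := h.hN
  unfold arc
  by_cases h0 : v = 0
  · rw [if_pos h0, if_neg (by omega)]
  rw [if_neg h0]
  by_cases h1 : v < P.B
  · rw [if_pos h1, if_neg h0]
  rw [if_neg h1]
  have h2 : v ≠ P.nx v := by
    unfold nx
    split_ifs <;> omega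
  rw [if_neg h2, if_neg (show ¬ (1 ≤ v ∧ v < P.B - P.e (v - P.B)) by omega)]
  by_cases h3 : v = P.B
  · rw [if_pos h3, h3, Nat.sub_self, h.e_zero (by omega)]
  · rw [if_neg h3]

theorem arc_le (h : P.Good) (u v : ℕ) : P.arc u v ≤ 1 := by
  have hB := h.hB
  have hN := h.hN
  have he := h.he1 (u - P.B)
  unfold arc nx
  split_ifs <;> omega

/-- the degree of a vertex -/
def dg (P : Par) (v : ℕ) : ℕ := if v < P.B then 1 else P.B

theorem sum_arc (h : P.Good) {v : ℕ} (hv : v < P.n) :
    ∑ w ∈ range P.n, P.arc v w = P.dg v := by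
  have hB := h.hB
  have e1 : ∑ w ∈ range P.n, P.arc v w = ∑ w ∈ range P.n, P.arc v w • (1 : ℕ) := by simp
  rw [e1]
  unfold dg
  by_cases h0 : v = 0
  · subst h0
    rw [out_zero h (fun _ => 1), if_pos (by omega)]
  · by_cases h1 : v < P.B
    · rw [out_copy (fun _ => 1) (by omega) h1, if_pos h1]
    · obtain ⟨k, rfl⟩ := Nat.exists_eq_add_of_le (not_lt.1 h1)
      have he := h.he1 k
      rw [out_chain (by omega) (fun _ => 1) (by unfold n at hv; omega), if_neg h1]
      simp
      omega

theorem outDeg_eq (h : P.Good) (v : Fin P.n) : outDeg P.mm v = P.dg v := by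
  unfold outDeg mm
  rw [← sum_arc h v.2]
  exact Fin.sum_univ_eq_sum_range (fun w => P.arc v w) P.n

end Par

end Pool.Agent.helper506_cf
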