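import Pool.Agent.helper506_cf.Str
import Pool.Agent.helper506_sr.Red

/-!
# The items of a formula

There is an item for every occurrence of a literal, an item for every pair of occurrences, and one
more item. The digits (columns) are the clauses and the pairs of occurrences.
-/

set_option autoImplicit false

namespace Pool.Agent.helper506_cf

open Finset Pool.Agent.NPC Pool.Agent.helper506_sr

/-- number of occurrences of literals -/
def o3 (φ : List Cl) : ℕ := 3 * φ.length

/-- number of columns -/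
def cN (φ : List Cl) : ℕ := φ.length + o3 φ * o3 φ + 2

/-- number of items -/
def cM (φ : List Cl) : ℕ := o3 φ + o3 φ * o3 φ + 1

/-- the items -/
def cD (φ : List Cl) (i t : ℕ) : ℕ :=
  if t = 0 ∨ t = cN φ - 1 then 1
  else if i < o3 φ then
    (if t ≤ φ.length then (if i / 3 = t - 1 then 1 else 0)
    else if Opp (litOf φ ((t - φ.length - 1) / o3 φ)) (litOf φ ((t - φ.length - 1) % o3 φ)) ∧
      (i = (t - φ.length - 1) / o3 φ ∨ i = (t - φ.length - 1) % o3 φ) then 1 else 0)
  else if t = φ.length + 1 + (i - o3 φ) then 1 else 0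

/-- the target -/
def cT (φ : List Cl) (t : ℕ) : ℕ := if t = 0 ∨ t = cN φ - 1 then cN φ else 1

/-- the base -/
def cB (φ : List Cl) : ℕ := 2 * cN φ + (2 * cM φ + 1) * cN φ + 4

theorem goodItems (φ : List Cl) : GoodItems (cN φ) (cM φ) (cN φ) (cB φ) (cD φ) (cT φ) where
  hN := by unfold cN; omega
  hM := by unfold cM; omega
  hD := by
    intro i t
    unfold cD
    split_ifs <;> omega
  hD0 := by
    intro i
    unfold cD
    rw [if_pos (Or.inl rfl)]
  hD1 := by
    intro i
    unfold cD
    rw [if_pos (Or.inr rfl)]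
  hS := by unfold cN; omega
  hSN := le_refl _
  hT := by
    intro j
    unfold cT
    split_ifs
    · exact le_refl _
    · unfold cN
      omega
  hT0 := by
    unfold cT
    rw [if_pos (Or.inl rfl)]
  hT1 := by
    unfold cT
    rw [if_pos (Or.inr rfl)]
  hB := le_refl _

theorem cT_symm (φ : List Cl) {t : ℕ} (ht : t < cN φ) : cT φ (cN φ - 1 - t) = cT φ t := by
  unfold cT
  have : 2 ≤ cN φ := by unfold cN; omega
  split_ifs <;> omega

theorem itemSel_iff' (φ : List Cl) : ItemSel (cN φ) (cM φ) (cN φ) (cD φ) (cT φ) ↔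
    ∃ s : ℕ → ℕ, ∑ i ∈ range (cM φ), s i = cN φ ∧
      ∀ t < cN φ, ∑ i ∈ range (cM φ), s i * cD φ i t = cT φ t := by
  constructor
  · rintro ⟨s, h1, h2⟩
    refine ⟨s, h1, fun t ht => ?_⟩
    have h3 := h2 (cN φ - 1 - t) (by omega)
    rw [show cN φ - 1 - (cN φ - 1 - t) = t by omega, cT_symm φ ht] at h3
    exact h3
  · rintro ⟨s, h1, h2⟩
    refine ⟨s, h1, fun j hj => ?_⟩
    rw [h2 _ (by omega), cT_symm φ hj]

/-- the sum over the items -/
theorem sum_cM (φ : List Cl) (F : ℕ → ℕ) : ∑ i ∈ range (cM φ), F i =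
    ∑ p ∈ range (o3 φ), F p + ∑ q ∈ range (o3 φ * o3 φ), F (o3 φ + q) +
      F (o3 φ + o3 φ * o3 φ) := by
  unfold cM
  rw [sum_range_succ, sum_range_add]

theorem cD_clause (φ : List Cl) {i c : ℕ} (hi : i < o3 φ) (hc : c < φ.length) :
    cD φ i (c + 1) = if i / 3 = c then 1 else 0 := by
  unfold cD
  rw [if_neg (by unfold cN; omega), if_pos hi, if_pos (by omega), Nat.add_sub_cancel]

theorem cD_clause' (φ : List Cl) {i c : ℕ} (hi : ¬ i < o3 φ) (hc : c < φ.length) :
    cD φ i (c + 1) = 0 := by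
  unfold cD
  rw [if_neg (by unfold cN; omega), if_neg hi, if_neg (by omega)]

theorem cD_pair (φ : List Cl) {i a b : ℕ} (hi : i < o3 φ) (ha : a < o3 φ) (hb : b < o3 φ) :
    cD φ i (φ.length + 1 + (a * o3 φ + b)) =
      if Opp (litOf φ a) (litOf φ b) ∧ (i = a ∨ i = b) then 1 else 0 := by
  have h1 : a * o3 φ + b < o3 φ * o3 φ := by
    have : (a + 1) * o3 φ ≤ o3 φ * o3 φ := Nat.mul_le_mul_right _ ha
    have h2 : (a + 1) * o3 φ = a * o3 φ + o3 φ := by ring
    omega
  have h3 : φ.length + 1 + (a * o3 φ + b) - φ.length - 1 = a * o3 φ + b := by omega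
  have h4 : (a * o3 φ + b) / o3 φ = a := by
    rw [Nat.mul_comm, Nat.mul_add_div (by omega), Nat.div_eq_of_lt hb, add_zero]
  have h5 : (a * o3 φ + b) % o3 φ = b := by
    rw [Nat.mul_comm, Nat.mul_add_mod, Nat.mod_eq_of_lt hb]
  unfold cD
  rw [if_neg (by unfold cN; omega), if_pos hi, if_neg (by omega), h3, h4, h5]

theorem cD_pair' (φ : List Cl) {q c : ℕ} (hc : c < o3 φ * o3 φ) :
    cD φ (o3 φ + q) (φ.length + 1 + c) = if q = c then 1 else 0 := by
  unfold cD
  rw [if_neg (by unfold cN; omega), if_neg (by omega), Nat.add_sub_cancel_left]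
  by_cases h : q = c
  · rw [if_pos h, if_pos (by omega)]
  · rw [if_neg h, if_neg (by omega)]

theorem cD_end (φ : List Cl) (i : ℕ) {t : ℕ} (ht : t = 0 ∨ t = cN φ - 1) : cD φ i t = 1 := by
  unfold cD
  rw [if_pos ht]

/-- truth of a literal -/
theorem sat3_iff (φ : List Cl) : SAT3 φ ↔ ∃ τ : ℕ → Bool, ∀ c < φ.length, ∃ r < 3,
    τ (litOf φ (3 * c + r)).2 = (litOf φ (3 * c + r)).1 := by
  have hl : ∀ c r, c < φ.length → r < 3 → ∀ (hc : c < φ.length), litOf φ (3 * c + r) =
      lit3 φ[c] r := by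
    intro c r hc hr hc'
    unfold litOf
    rw [show (3 * c + r) / 3 = c by omega, show (3 * c + r) % 3 = r by omega,
      List.getD_eq_getElem _ _ hc']
  constructor
  · rintro ⟨τ, hτ⟩
    refine ⟨τ, fun c hc => ?_⟩
    rcases hτ _ (List.getElem_mem hc) with h | h | h
    · exact ⟨0, by omega, by rw [hl c 0 hc (by omega) hc]; exact h⟩
    · exact ⟨1, by omega, by rw [hl c 1 hc (by omega) hc]; exact h⟩
    · exact ⟨2, by omega, by rw [hl c 2 hc (by omega) hc]; exact h⟩
  · rintro ⟨τ, hτ⟩
    refine ⟨τ, fun cl hcl => ?_⟩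
    obtain ⟨c, hc, rfl⟩ := List.getElem_of_mem hcl
    obtain ⟨r, hr, h⟩ := hτ c hc
    rw [hl c r hc hr hc] at h
    interval_cases r
    · exact Or.inl h
    · exact Or.inr (Or.inl h)
    · exact Or.inr (Or.inr h)

theorem sum_blocks (φ : List Cl) (s : ℕ → ℕ) {c : ℕ} (hc : c < φ.length) :
    ∑ p ∈ range (o3 φ), s p * (if p / 3 = c then 1 else 0) =
      s (3 * c) + s (3 * c + 1) + s (3 * c + 2) := by
  have h1 : ∑ p ∈ range (o3 φ), s p * (if p / 3 = c then 1 else 0) =
      ∑ p ∈ ({3 * c, 3 * c + 1, 3 * c + 2} : Finset ℕ), s p := by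
    have h2 : ∀ p ∈ range (o3 φ), s p * (if p / 3 = c then 1 else 0) =
        if p / 3 = c then s p else 0 := by
      intro p _
      split_ifs <;> simp
    rw [sum_congr rfl h2, ← sum_filter]
    refine sum_congr ?_ fun _ _ => rfl
    ext p
    simp only [mem_filter, mem_range, mem_insert, mem_singleton, o3]
    omega
  rw [h1, sum_insert (by simp), sum_insert (by simp), sum_singleton]
  ring

theorem sum_pair (φ : List Cl) (s : ℕ → ℕ) {a b : ℕ} (ha : a < o3 φ) (hb : b < o3 φ)
    (ho : Opp (litOf φ a) (litOf φ b)) :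
    ∑ p ∈ range (o3 φ), s p * (if Opp (litOf φ a) (litOf φ b) ∧ (p = a ∨ p = b) then 1 else 0) =
      s a + s b := by
  have hab : a ≠ b := by
    rintro rfl
    exact ho.2 rfl
  have h2 : ∀ p ∈ range (o3 φ),
      s p * (if Opp (litOf φ a) (litOf φ b) ∧ (p = a ∨ p = b) then 1 else 0) =
        if p = a ∨ p = b then s p else 0 := by
    intro p _
    by_cases hp : p = a ∨ p = b
    · rw [if_pos ⟨ho, hp⟩, if_pos hp, mul_one]
    · rw [if_neg (fun h => hp h.2), if_neg hp, mul_zero]
  rw [sum_congr rfl h2, ← sum_filter]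
  have h3 : (range (o3 φ)).filter (fun p => p = a ∨ p = b) = {a, b} := by
    ext p
    simp only [mem_filter, mem_range, mem_insert, mem_singleton]
    constructor
    · exact fun h => h.2
    · rintro (rfl | rfl)
      · exact ⟨ha, Or.inl rfl⟩
      · exact ⟨hb, Or.inr rfl⟩
  rw [h3, sum_insert (by simpa using hab), sum_singleton]

theorem itemSel_of_sat {φ : List Cl} (h : SAT3 φ) :
    ItemSel (cN φ) (cM φ) (cN φ) (cD φ) (cT φ) := by
  classical
  rw [itemSel_iff']
  rw [sat3_iff] at h
  obtain ⟨τ, hτ⟩ := h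
  choose! r hr hr' using hτ
  -- the chosen occurrences
  set ch : ℕ → ℕ := fun p => if p % 3 = r (p / 3) then 1 else 0 with hch
  set s : ℕ → ℕ := fun i =>
    if i < o3 φ then ch i
    else if i < o3 φ + o3 φ * o3 φ then
      (if Opp (litOf φ ((i - o3 φ) / o3 φ)) (litOf φ ((i - o3 φ) % o3 φ)) then
        1 - (ch ((i - o3 φ) / o3 φ) + ch ((i - o3 φ) % o3 φ)) else 1)
    else 0 with hs
  have ch1 : ∀ p, ch p ≤ 1 := by
    intro p
    rw [hch]
    simp only
    split_ifs <;> omega
  have hcl : ∀ c < φ.length, ch (3 * c) + ch (3 * c + 1) + ch (3 * c + 2) = 1 := by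
    intro c hc
    have h1 := hr c hc
    rw [hch]
    simp only
    rw [show 3 * c % 3 = 0 by omega, show (3 * c + 1) % 3 = 1 by omega,
      show (3 * c + 2) % 3 = 2 by omega, show 3 * c / 3 = c by omega,
      show (3 * c + 1) / 3 = c by omega, show (3 * c + 2) / 3 = c by omega]
    split_ifs <;> omega
  have hopp : ∀ a < o3 φ, ∀ b < o3 φ, Opp (litOf φ a) (litOf φ b) → ch a + ch b ≤ 1 := by
    intro a ha b hb ho
    by_contra hgt
    have h1 := ch1 a
    have h2 := ch1 b
    have h3 : ∀ p < o3 φ, ch p = 1 → τ (litOf φ p).2 = (litOf φ p).1 := by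
      intro p hp h4
      rw [hch] at h4
      simp only at h4
      have h5 : p % 3 = r (p / 3) := by
        by_contra h6
        rw [if_neg h6] at h4
        omega
      have h7 := hr' (p / 3) (by unfold o3 at hp; omega)
      rw [← h5, Nat.div_add_mod] at h7
      exact h7
    have h4 := h3 a ha (by omega)
    have h5 := h3 b hb (by omega)
    apply ho.2
    rw [← h4, ← h5, ho.1]
  have s1 : ∀ p ∈ range (o3 φ), s p = ch p := by
    intro p hp
    rw [mem_range] at hp
    rw [hs]
    simp only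
    rw [if_pos hp]
  have s2 : ∀ a < o3 φ, ∀ b < o3 φ, s (o3 φ + (a * o3 φ + b)) =
      if Opp (litOf φ a) (litOf φ b) then 1 - (ch a + ch b) else 1 := by
    intro a ha b hb
    have h1 : a * o3 φ + b < o3 φ * o3 φ := by
      have : (a + 1) * o3 φ ≤ o3 φ * o3 φ := Nat.mul_le_mul_right _ ha
      have h2 : (a + 1) * o3 φ = a * o3 φ + o3 φ := by ring
      omega
    have h4 : (a * o3 φ + b) / o3 φ = a := by
      rw [Nat.mul_comm, Nat.mul_add_div (by omega), Nat.div_eq_of_lt hb, add_zero]
    have h5 : (a * o3 φ + b) % o3 φ = b := by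
      rw [Nat.mul_comm, Nat.mul_add_mod, Nat.mod_eq_of_lt hb]
    rw [hs]
    simp only
    rw [if_neg (by omega), if_pos (by omega), Nat.add_sub_cancel_left, h4, h5]
  have s3 : s (o3 φ + o3 φ * o3 φ) = 0 := by
    rw [hs]
    simp only
    rw [if_neg (by omega), if_neg (by omega)]
  -- the total is at most the number of columns
  have htot : ∑ i ∈ range (cM φ), s i ≤ cN φ := by
    rw [sum_cM, s3, sum_congr rfl s1]
    have e1 : ∑ p ∈ range (o3 φ), ch p ≤ φ.length := by
      have e2 : ∑ p ∈ range (o3 φ), ch p =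
          ∑ c ∈ range φ.length, (ch (3 * c) + ch (3 * c + 1) + ch (3 * c + 2)) := by
        unfold o3
        generalize φ.length = m
        induction m with
        | zero => simp
        | succ m ih =>
          rw [sum_range_succ _ m, ← ih, show 3 * (m + 1) = 3 * m + 1 + 1 + 1 by ring,
            sum_range_succ, sum_range_succ, sum_range_succ]
          ring
      rw [e2, sum_congr rfl fun c hc => hcl c (mem_range.1 hc)]
      simp
    have e3 : ∑ q ∈ range (o3 φ * o3 φ), s (o3 φ + q) ≤ o3 φ * o3 φ := by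
      have e4 : ∀ q ∈ range (o3 φ * o3 φ), s (o3 φ + q) ≤ 1 := by
        intro q hq
        rw [mem_range] at hq
        rw [hs]
        simp only
        rw [if_neg (by omega), if_pos (by omega)]
        split_ifs <;> omega
      refine (sum_le_sum e4).trans ?_
      simp
    have e5 : (range (o3 φ)).sum ch ≤ φ.length := e1
    unfold cN
    omega
  -- add the filler
  set s' : ℕ → ℕ := fun i => if i = o3 φ + o3 φ * o3 φ then cN φ - ∑ i ∈ range (cM φ), s i
    else s i with hs'
  have g1 : ∀ i, i ≠ o3 φ + o3 φ * o3 φ → s' i = s i := by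
    intro i hi
    rw [hs']
    simp only
    rw [if_neg hi]
  have g2 : s' (o3 φ + o3 φ * o3 φ) = cN φ - ∑ i ∈ range (cM φ), s i := by
    rw [hs']
    simp only
    rw [if_pos trivial]
  have g3 : ∑ p ∈ range (o3 φ), s' p = ∑ p ∈ range (o3 φ), s p := by
    refine sum_congr rfl fun p hp => g1 p ?_
    rw [mem_range] at hp
    omega
  have g4 : ∑ q ∈ range (o3 φ * o3 φ), s' (o3 φ + q) =
      ∑ q ∈ range (o3 φ * o3 φ), s (o3 φ + q) := by
    refine sum_congr rfl fun q hq => g1 _ ?_
    rw [mem_range] at hq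
    omega
  refine ⟨s', ?_, ?_⟩
  · rw [sum_cM, g3, g4, g2]
    have h1 := sum_cM φ s
    rw [s3] at h1
    omega
  · intro t ht
    by_cases hte : t = 0 ∨ t = cN φ - 1
    · have h1 : ∑ i ∈ range (cM φ), s' i * cD φ i t = ∑ i ∈ range (cM φ), s' i := by
        refine sum_congr rfl fun i _ => ?_
        rw [cD_end φ i hte, mul_one]
      unfold cT
      rw [h1, if_pos hte, sum_cM, g3, g4, g2]
      have h2 := sum_cM φ s
      rw [s3] at h2
      omega
    · unfold cT
      rw [if_neg hte, sum_cM]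
      rcases Nat.lt_or_ge φ.length t with h1 | h1
      · -- a pair
        obtain ⟨q, rfl⟩ : ∃ q, t = φ.length + 1 + q := ⟨t - φ.length - 1, by omega⟩
        have hq : q < o3 φ * o3 φ := by unfold cN at ht hte; omega
        have hpos : 0 < o3 φ := by
          rcases Nat.eq_zero_or_pos (o3 φ) with h0 | h0
          · rw [h0] at hq
            omega
          · exact h0
        obtain ⟨a, b, ha, hb, rfl⟩ : ∃ a b, a < o3 φ ∧ b < o3 φ ∧ q = a * o3 φ + b :=
          ⟨q / o3 φ, q % o3 φ, Nat.div_lt_of_lt_mul hq, Nat.mod_lt _ hpos, by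
            rw [Nat.mul_comm]; exact (Nat.div_add_mod _ _).symm⟩
        have e1 : ∑ p ∈ range (o3 φ), s' p * cD φ p (φ.length + 1 + (a * o3 φ + b)) =
            ∑ p ∈ range (o3 φ), ch p *
              (if Opp (litOf φ a) (litOf φ b) ∧ (p = a ∨ p = b) then 1 else 0) := by
          refine sum_congr rfl fun p hp => ?_
          have hp' := mem_range.1 hp
          rw [g1 p (by omega), s1 p hp, cD_pair φ hp' ha hb]
        have e2 : ∑ q ∈ range (o3 φ * o3 φ), s' (o3 φ + q) *
            cD φ (o3 φ + q) (φ.length + 1 + (a * o3 φ + b)) =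
            if Opp (litOf φ a) (litOf φ b) then 1 - (ch a + ch b) else 1 := by
          rw [sum_eq_single (a * o3 φ + b)]
          · rw [g1 _ (by omega), s2 a ha b hb, cD_pair' φ hq, if_pos rfl, mul_one]
          · intro q' _ hne
            rw [cD_pair' φ hq, if_neg hne, mul_zero]
          · intro hn
            exact absurd (mem_range.2 hq) hn
        have e3 : cD φ (o3 φ + o3 φ * o3 φ) (φ.length + 1 + (a * o3 φ + b)) = 0 := by
          rw [cD_pair' φ hq, if_neg (by omega)]
        rw [e1, e2, e3]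
        by_cases ho : Opp (litOf φ a) (litOf φ b)
        · rw [sum_pair φ ch ha hb ho, if_pos ho]
          have := hopp a ha b hb ho
          omega
        · rw [if_neg ho]
          have e4 : ∑ p ∈ range (o3 φ), ch p *
              (if Opp (litOf φ a) (litOf φ b) ∧ (p = a ∨ p = b) then 1 else 0) = 0 := by
            refine sum_eq_zero fun p _ => ?_
            rw [if_neg (fun h => ho h.1), mul_zero]
          rw [e4]
          simp
      · -- a clause
        obtain ⟨c, rfl⟩ : ∃ c, t = c + 1 := ⟨t - 1, by omega⟩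
        have hc : c < φ.length := by omega
        have e1 : ∑ p ∈ range (o3 φ), s' p * cD φ p (c + 1) =
            ∑ p ∈ range (o3 φ), ch p * (if p / 3 = c then 1 else 0) := by
          refine sum_congr rfl fun p hp => ?_
          have hp' := mem_range.1 hp
          rw [g1 p (by omega), s1 p hp, cD_clause φ hp' hc]
        have e2 : ∑ q ∈ range (o3 φ * o3 φ), s' (o3 φ + q) * cD φ (o3 φ + q) (c + 1) = 0 := by
          refine sum_eq_zero fun q _ => ?_
          rw [cD_clause' φ (by omega) hc, mul_zero]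
        rw [e1, e2, cD_clause' φ (by omega) hc, sum_blocks φ ch hc, hcl c hc]
        ring

theorem sat_of_itemSel {φ : List Cl} (h : ItemSel (cN φ) (cM φ) (cN φ) (cD φ) (cT φ)) :
    SAT3 φ := by
  classical
  rw [itemSel_iff'] at h
  obtain ⟨s, -, h2⟩ := h
  have hcl : ∀ c < φ.length, s (3 * c) + s (3 * c + 1) + s (3 * c + 2) = 1 := by
    intro c hc
    have h3 := h2 (c + 1) (by unfold cN; omega)
    rw [sum_cM] at h3
    have e1 : ∑ p ∈ range (o3 φ), s p * cD φ p (c + 1) =
        ∑ p ∈ range (o3 φ), s p * (if p / 3 = c then 1 else 0) := by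
      refine sum_congr rfl fun p hp => ?_
      rw [cD_clause φ (mem_range.1 hp) hc]
    have e2 : ∑ q ∈ range (o3 φ * o3 φ), s (o3 φ + q) * cD φ (o3 φ + q) (c + 1) = 0 := by
      refine sum_eq_zero fun q _ => ?_
      rw [cD_clause' φ (by omega) hc, mul_zero]
    rw [e1, e2, cD_clause' φ (by omega) hc, sum_blocks φ s hc] at h3
    unfold cT at h3
    rw [if_neg (by unfold cN; omega)] at h3
    omega
  have hopp : ∀ a < o3 φ, ∀ b < o3 φ, Opp (litOf φ a) (litOf φ b) → s a + s b ≤ 1 := by
    intro a ha b hb ho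
    have hq : a * o3 φ + b < o3 φ * o3 φ := by
      have : (a + 1) * o3 φ ≤ o3 φ * o3 φ := Nat.mul_le_mul_right _ ha
      have h2 : (a + 1) * o3 φ = a * o3 φ + o3 φ := by ring
      omega
    have h3 := h2 (φ.length + 1 + (a * o3 φ + b)) (by unfold cN; omega)
    rw [sum_cM] at h3
    have e1 : ∑ p ∈ range (o3 φ), s p * cD φ p (φ.length + 1 + (a * o3 φ + b)) =
        ∑ p ∈ range (o3 φ), s p *
          (if Opp (litOf φ a) (litOf φ b) ∧ (p = a ∨ p = b) then 1 else 0) := by
      refine sum_congr rfl fun p hp => ?_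
      rw [cD_pair φ (mem_range.1 hp) ha hb]
    rw [e1, sum_pair φ s ha hb ho] at h3
    unfold cT at h3
    rw [if_neg (by unfold cN; omega)] at h3
    omega
  rw [sat3_iff]
  refine ⟨fun x => decide (∃ p < o3 φ, s p = 1 ∧ litOf φ p = (true, x)), fun c hc => ?_⟩
  obtain ⟨r, hr, hsr⟩ : ∃ r < 3, s (3 * c + r) = 1 := by
    have := hcl c hc
    by_contra hno
    push Not at hno
    have e0 := hno 0 (by omega)
    have e1 := hno 1 (by omega)
    have e2 := hno 2 (by omega)
    rw [add_zero] at e0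
    omega
  refine ⟨r, hr, ?_⟩
  have hp : 3 * c + r < o3 φ := by unfold o3; omega
  generalize hl : litOf φ (3 * c + r) = l at *
  obtain ⟨b, x⟩ := l
  cases b with
  | true =>
    simp only [decide_eq_true_eq]
    exact ⟨3 * c + r, hp, hsr, hl⟩
  | false =>
    simp only [decide_eq_false_iff_not]
    rintro ⟨q, hq, hsq, hlq⟩
    have := hopp _ hp q hq (by rw [hl, hlq]; exact ⟨rfl, by simp⟩)
    omega

theorem sat_iff_itemSel (φ : List Cl) :
    SAT3 φ ↔ ItemSel (cN φ) (cM φ) (cN φ) (cD φ) (cT φ) :=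
  ⟨itemSel_of_sat, sat_of_itemSel⟩

/-- the parameters of a formula -/
def parOf (φ : List Cl) : Par := par (cN φ) (cM φ) (cN φ) (cB φ) (cD φ) (cT φ)

theorem parOf_good (φ : List Cl) : (parOf φ).Good := par_good (goodItems φ)

theorem sat_iff_sel (φ : List Cl) : SAT3 φ ↔ (parOf φ).Sel :=
  (sat_iff_itemSel φ).trans (sel_iff (goodItems φ)).symm

end Pool.Agent.helper506_cf
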