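import Pool.Agent.helper506_cf.Per

/-!
# Obstructions
-/

set_option autoImplicit false

namespace Pool.Agent.helper506_cf

open Finset

/-- The chips that leave the support of an obstruction are bounded by the slack. -/
theorem flow_bound {V : Type} [Fintype V] [DecidableEq V] (m : V → V → ℕ) (y u : V → ℤ)
    (hu0 : 0 ≤ u) (hobs : ∀ v, 0 < u v → (y + Lap m u) v < outDeg m v) :
    ∑ w, u w * ∑ v, (m w v : ℤ) * (if 0 < u v then 0 else 1) +
      ∑ v, ((outDeg m v : ℤ) - 1 - y v) * (if 0 < u v then 0 else 1) ≤
      ∑ v, ((outDeg m v : ℤ) - 1 - y v) := by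
  have h1 : ∀ v, (if 0 < u v then (0 : ℤ) else 1) * Lap m u v =
      -((if 0 < u v then (0 : ℤ) else 1) * ∑ w, (m w v : ℤ) * u w) := by
    intro v
    rw [Lap_apply]
    by_cases hv : 0 < u v
    · simp [hv]
    · have h2 : 0 ≤ u v := hu0 v
      have h3 : u v = 0 := by omega
      rw [if_neg hv, h3]
      ring
  have h2 : ∑ v, (if 0 < u v then (0 : ℤ) else 1) * Lap m u v =
      -∑ w, u w * ∑ v, (m w v : ℤ) * (if 0 < u v then 0 else 1) := by
    rw [sum_congr rfl fun v _ => h1 v, sum_neg_distrib]
    congr 1
    simp only [mul_sum]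
    rw [sum_comm]
    refine sum_congr rfl fun w _ => sum_congr rfl fun v _ => ?_
    ring
  have h3 : ∀ v, Lap m u v - (if 0 < u v then (0 : ℤ) else 1) * Lap m u v ≤
      ((outDeg m v : ℤ) - 1 - y v) - ((outDeg m v : ℤ) - 1 - y v) *
        (if 0 < u v then 0 else 1) := by
    intro v
    by_cases hv : 0 < u v
    · have := hobs v hv
      rw [Pi.add_apply] at this
      rw [if_pos hv]
      linarith
    · rw [if_neg hv]
      linarith
  have h4 := sum_le_sum fun v (_ : v ∈ (univ : Finset V)) => h3 v
  simp only [sum_sub_distrib] at h4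
  rw [h2, sum_Lap] at h4
  simp only [sum_sub_distrib]
  linarith

namespace Par

variable {P : Par}

theorem full_of_obstruction (h : P.Good) (u : Fin P.n → ℤ) (hu0 : 0 ≤ u) (hu : u ≠ 0)
    (hobs : ∀ v, 0 < u v → (P.yy + Lap P.mm u) v < outDeg P.mm v) : ∀ v, 0 < u v := by
  have hB := h.hB
  have hN := h.hN
  have hNL := h.hNL
  have hS := h.hS
  have hSE := h.hSE
  obtain ⟨f, hf⟩ : ∃ f : ℕ → ℤ, ∀ v : Fin P.n, u v = f v :=
    ⟨fun v => if hv : v < P.n then u ⟨v, hv⟩ else 0, fun v => by simp⟩
  have hf0 : ∀ v < P.n, 0 ≤ f v := fun v hv => by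
    have h1 : 0 ≤ u ⟨v, hv⟩ := hu0 ⟨v, hv⟩
    rw [hf] at h1
    exact h1
  have hin : ∀ v < P.n, 0 < f v → P.y v + ((P.dg v : ℤ) * f v -
      ∑ w ∈ range P.n, (P.arc w v : ℤ) * f w) < P.dg v := by
    intro v hv h1
    have h2 := hobs ⟨v, hv⟩ (by rw [hf]; exact h1)
    rw [Pi.add_apply, Lap_eq h u f hf, outDeg_eq h] at h2
    exact h2
  have hz : 0 < f 0 := by
    by_contra hz
    have hz0 : f 0 = 0 := le_antisymm (not_lt.1 hz) (hf0 0 (by unfold n; omega))
    -- the chain
    have k0 : 0 < f P.B → (P.yd 0 : ℤ) + (P.B : ℤ) * f P.B -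
        ∑ k ∈ range (P.L + 1), (P.e k : ℤ) * f (P.B + k) ≤ P.B - 1 := by
      intro h1
      have h2 := hin P.B (by unfold n; omega) h1
      have h3 := y_chain h 0
      rw [add_zero] at h3
      rw [in_chain_zero h, h3] at h2
      unfold dg at h2
      rw [if_neg (by omega)] at h2
      linarith
    have k1 : ∀ k < P.L, 0 < f (P.B + (k + 1)) → (P.yd (k + 1) : ℤ) +
        (P.B : ℤ) * f (P.B + (k + 1)) - f (P.B + k) ≤ P.B - 1 := by
      intro k hk h1
      have h2 := hin (P.B + (k + 1)) (by unfold n; omega) h1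
      rw [in_chain h _ hk, y_chain h, hz0] at h2
      unfold dg at h2
      rw [if_neg (by omega)] at h2
      simp only [ite_self, add_zero] at h2
      linarith
    have hfB : ∀ k ≤ P.L, 0 ≤ f (P.B + k) := fun k hk => hf0 _ (by unfold n; omega)
    have hB0 : f P.B = 0 := by
      by_contra hne
      have h1 : 0 < f P.B := lt_of_le_of_ne (by simpa using hfB 0 (by omega)) (Ne.symm hne)
      set α : ℕ → ℤ := fun k => if 0 < f (P.B + k) then 1 else 0 with hα
      have hα1 : ∀ k ≤ P.L, α k ≤ f (P.B + k) := by
        intro k hk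
        have := hfB k hk
        rw [hα]
        simp only
        split_ifs <;> omega
      have hα2 : ∀ k, α k ≤ 1 := by
        intro k
        rw [hα]
        simp only
        split_ifs <;> omega
      have hα0 : ∀ k, 0 ≤ α k := by
        intro k
        rw [hα]
        simp only
        split_ifs <;> omega
      have h2 : ∀ k < P.L, (P.B : ℤ) * f (P.B + (k + 1)) - f (P.B + k) ≤
          ((P.B : ℤ) - 1) * α (k + 1) := by
        intro k hk
        by_cases h3 : 0 < f (P.B + (k + 1))
        · have h4 := k1 k hk h3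
          have h5 : α (k + 1) = 1 := if_pos h3
          rw [h5]
          have : (0 : ℤ) ≤ P.yd (k + 1) := by positivity
          linarith
        · have h4 := hfB (k + 1) (by omega)
          have h5 : f (P.B + (k + 1)) = 0 := by omega
          have h6 : α (k + 1) = 0 := if_neg h3
          have h7 := hfB k (by omega)
          rw [h5, h6]
          linarith
      have h3 := k0 h1
      have h4 : α 0 = 1 := if_pos (by simpa using h1)
      -- sum
      have h5 : (P.B : ℤ) * ∑ k ∈ range P.L, f (P.B + (k + 1)) -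
          ∑ k ∈ range P.L, f (P.B + k) ≤ ((P.B : ℤ) - 1) * ∑ k ∈ range P.L, α (k + 1) := by
        rw [mul_sum, mul_sum, ← sum_sub_distrib]
        refine sum_le_sum fun k hk => ?_
        rw [mem_range] at hk
        exact h2 k hk
      have h6 : ∑ k ∈ range (P.L + 1), f (P.B + k) =
          ∑ k ∈ range P.L, f (P.B + (k + 1)) + f P.B := by
        rw [sum_range_succ']
        simp
      have h7 : ∑ k ∈ range (P.L + 1), f (P.B + k) =
          ∑ k ∈ range P.L, f (P.B + k) + f (P.B + P.L) := sum_range_succ _ _
      have h8 : ∑ k ∈ range (P.L + 1), α k = ∑ k ∈ range P.L, α (k + 1) + 1 := by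
        rw [sum_range_succ', h4]
      have h9 : ∑ k ∈ range (P.L + 1), (((P.B : ℤ) - 1) * α k - P.e k) ≤
          ∑ k ∈ range (P.L + 1), (((P.B : ℤ) - 1) * f (P.B + k) - P.e k * f (P.B + k)) := by
        refine sum_le_sum fun k hk => ?_
        rw [mem_range] at hk
        have g1 := hα1 k (by omega)
        have g2 := hα2 k
        have g3 := h.he1 k
        have g4 := hα0 k
        rcases Nat.eq_zero_or_pos (P.e k) with g5 | g5
        · rw [g5]
          push_cast
          have g6 : (0 : ℤ) ≤ (P.B : ℤ) - 1 := by omega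
          nlinarith
        · have g6 : P.e k = 1 := by omega
          rw [g6]
          push_cast
          have g7 : (0 : ℤ) ≤ (P.B : ℤ) - 2 := by omega
          nlinarith
      have h10 := hfB P.L le_rfl
      have h11 : (P.yd 0 : ℤ) = P.S + P.E - 1 := by
        unfold yd
        rw [if_pos rfl]
        omega
      have h12 : (P.E : ℤ) = ∑ k ∈ range (P.L + 1), (P.e k : ℤ) := by
        unfold E
        push_cast
        rfl
      simp only [sum_sub_distrib, ← mul_sum] at h9
      rw [h11, h12] at h3
      rw [h8] at h9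
      have h13 : (P.B : ℤ) * ∑ k ∈ range P.L, f (P.B + (k + 1)) + (P.B : ℤ) * f P.B =
          (P.B : ℤ) * ∑ k ∈ range (P.L + 1), f (P.B + k) := by rw [h6]; ring
      have h14 : ((P.B : ℤ) - 1) * ∑ k ∈ range (P.L + 1), f (P.B + k) =
          (P.B : ℤ) * ∑ k ∈ range (P.L + 1), f (P.B + k) -
            ∑ k ∈ range (P.L + 1), f (P.B + k) := by ring
      have h15 : (2 : ℤ) ≤ P.S := by exact_mod_cast hS
      linarith
    have hBk : ∀ k ≤ P.L, f (P.B + k) = 0 := by
      intro k
      induction k with
      | zero =>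
        intro _
        rw [add_zero]
        exact hB0
      | succ k ih =>
        intro hk
        by_contra hne
        have h1 : 0 < f (P.B + (k + 1)) := lt_of_le_of_ne (hfB _ hk) (Ne.symm hne)
        have h2 := k1 k (by omega) h1
        rw [ih (by omega)] at h2
        have h3 : (0 : ℤ) ≤ P.yd (k + 1) := by positivity
        have h4 : (P.B : ℤ) * 1 ≤ (P.B : ℤ) * f (P.B + (k + 1)) :=
          mul_le_mul_of_nonneg_left (by omega) (by positivity)
        linarith
    apply hu
    funext v
    rw [hf, Pi.zero_apply]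
    by_cases h0 : (v : ℕ) = 0
    · rw [h0]
      exact hz0
    · by_cases h1 : (v : ℕ) < P.B
      · by_contra hne
        have h2 : 0 < f v := lt_of_le_of_ne (hf0 _ v.2) (Ne.symm hne)
        have h3 := hin v v.2 h2
        rw [in_copy h _ (by omega) h1, y_copy (by omega) h1] at h3
        have h4 : ∑ k ∈ range (P.L + 1), (if (v : ℕ) < P.B - P.e k then f (P.B + k) else 0) =
            0 := by
          refine sum_eq_zero fun k hk => ?_
          rw [mem_range] at hk
          rw [hBk k (by omega), ite_self]
        unfold dg at h3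
        rw [h4, if_pos h1] at h3
        push_cast at h3
        linarith
      · obtain ⟨k, hk⟩ := Nat.exists_eq_add_of_le (not_lt.1 h1)
        rw [hk]
        have := v.2
        unfold n at this
        exact hBk k (by omega)
  -- the hub is in the support
  have hfl := flow_bound P.mm P.yy u hu0 hobs
  have hbb : ∑ v, ((outDeg P.mm v : ℤ) - 1 - P.yy v) = P.S := by
    rw [← sum_bb h, ← Fin.sum_univ_eq_sum_range P.bb]
    refine sum_congr rfl fun v _ => ?_
    rw [outDeg_eq h]
    rfl
  rw [hbb] at hfl
  have hb0 : ∀ v : Fin P.n, 0 ≤ ((outDeg P.mm v : ℤ) - 1 - P.yy v) *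
      (if 0 < u v then 0 else 1) := by
    intro v
    by_cases hv : 0 < u v
    · simp [hv]
    · rw [if_neg hv, mul_one, outDeg_eq h]
      have h1 : P.yy v = P.y v := rfl
      rw [h1]
      have h0 : (v : ℕ) ≠ 0 := by
        intro h0
        apply hv
        rw [hf, h0]
        exact hz
      unfold dg
      by_cases h2 : (v : ℕ) < P.B
      · rw [y_copy (by omega) h2, if_pos h2]
        simp
      · obtain ⟨k, hk⟩ := Nat.exists_eq_add_of_le (not_lt.1 h2)
        rw [hk, y_chain h, if_neg (by omega)]
        unfold yd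
        have h3 := h.hT k
        split_ifs <;> omega
  have ha0 : ∀ w : Fin P.n, 0 ≤ u w * ∑ v, (P.mm w v : ℤ) * (if 0 < u v then 0 else 1) := by
    intro w
    refine mul_nonneg (hu0 w) (sum_nonneg fun v _ => ?_)
    split_ifs <;> simp
  have hchain : ∀ k ≤ P.L, 0 < f (P.B + k) := by
    intro k hk
    by_contra hne
    have hv : P.B + k < P.n := by unfold n; omega
    have h1 : ¬ 0 < u ⟨P.B + k, hv⟩ := by rw [hf]; exact hne
    have h2 := single_le_sum (fun v _ => hb0 v) (mem_univ (⟨P.B + k, hv⟩ : Fin P.n))
    rw [if_neg h1, mul_one, outDeg_eq h] at h2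
    have h3 : P.yy ⟨P.B + k, hv⟩ = P.y (P.B + k) := rfl
    have h4 := sum_nonneg fun w (_ : w ∈ (univ : Finset (Fin P.n))) => ha0 w
    rw [h3, y_chain h] at h2
    unfold dg at h2
    simp only at h2
    rw [if_neg (by omega)] at h2
    have h5 : (P.B : ℤ) - 1 - P.yd k ≤ P.S := by linarith
    unfold yd at h5
    have h6 := h.hT k
    split_ifs at h5 <;> omega
  intro v
  rw [hf]
  by_cases h0 : (v : ℕ) = 0
  · rw [h0]
    exact hz
  · by_cases h1 : (v : ℕ) < P.B
    · by_contra hne
      have h2 : ¬ 0 < u v := by rw [hf]; exact hne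
      have h3 : ∑ w : Fin P.n, (P.arc w v : ℤ) * f w ≤
          ∑ w, u w * ∑ v, (P.mm w v : ℤ) * (if 0 < u v then 0 else 1) := by
        refine sum_le_sum fun w _ => ?_
        rw [mul_comm, ← hf w]
        refine mul_le_mul_of_nonneg_left ?_ (hu0 w)
        have h4 := single_le_sum (f := fun v => (P.mm w v : ℤ) * (if 0 < u v then 0 else 1))
          (fun v _ => by
            split_ifs <;> simp) (mem_univ v)
        rw [if_neg h2, mul_one] at h4
        exact h4
      rw [Fin.sum_univ_eq_sum_range (fun w => (P.arc w v : ℤ) * f w) P.n,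
        in_copy h _ (by omega) h1] at h3
      have h4 : ∑ k ∈ range (P.L + 1), (1 - (P.e k : ℤ)) ≤
          ∑ k ∈ range (P.L + 1), (if (v : ℕ) < P.B - P.e k then f (P.B + k) else 0) := by
        refine sum_le_sum fun k hk => ?_
        rw [mem_range] at hk
        have h5 := hchain k (by omega)
        have h6 := h.he1 k
        by_cases h7 : P.e k = 0
        · rw [h7, if_pos (by omega)]
          push_cast
          omega
        · have h8 : P.e k = 1 := by omega
          rw [h8]
          split_ifs <;> push_cast <;> omega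
      have h5 : ∑ k ∈ range (P.L + 1), (1 - (P.e k : ℤ)) = P.L + 1 - P.E := by
        rw [sum_sub_distrib]
        unfold E
        push_cast
        simp
      have h6 := sum_nonneg fun w (_ : w ∈ (univ : Finset (Fin P.n))) => hb0 w
      have h7 : ((P.L : ℤ) + 1 - P.E) ≤ P.S := by linarith
      omega
    · obtain ⟨k, hk⟩ := Nat.exists_eq_add_of_le (not_lt.1 h1)
      rw [hk]
      have := v.2
      unfold n at this
      exact hchain k (by omega)

theorem sel_of_obstruction (h : P.Good) (u : Fin P.n → ℤ) (hu0 : 0 ≤ u) (hu : u ≠ 0)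
    (hobs : ∀ v, 0 < u v → (P.yy + Lap P.mm u) v < outDeg P.mm v) : P.Sel := by
  have h1 := full_of_obstruction h u hu0 hu hobs
  refine sel_of_stable h (-u) fun v => ?_
  rw [map_neg, sub_neg_eq_add]
  exact hobs v (h1 v)

/-- The distribution is terminating if and only if the condition holds. -/
theorem terminating_iff (h : P.Good) : Terminating P.mm P.yy ↔ P.Sel := by
  have hm : ∀ v, P.mm v v = 0 := fun v => arc_self h v
  constructor
  · intro ht
    obtain ⟨F, _, hF⟩ := stable_of_terminating hm ht
    exact sel_of_stable h F hF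
  · intro hs
    obtain ⟨F, hF0, hF⟩ := stable_of_sel h hs
    exact terminating_of_stable hm hF0 hF

/-- the hub -/
def hub (P : Par) : Fin P.n := ⟨0, by unfold n; omega⟩

/-- The distribution can be reached from the one obtained by firing the hub if and only if the
condition fails. -/
theorem reaches_iff (h : P.Good) : Reaches P.mm (fire P.mm P.yy P.hub) P.yy ↔ ¬ P.Sel := by
  have hm : ∀ v, P.mm v v = 0 := fun v => arc_self h v
  have hB := h.hB
  have hN := h.hN
  have hNL := h.hNL
  have hS := h.hS
  have hSE := h.hSE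
  constructor
  · intro hr hs
    obtain ⟨F, hF0, hF⟩ := stable_of_sel h hs
    refine no_loop hm hF0 hF ?_ hr
    unfold fire
    rw [if_pos rfl, hm, outDeg_eq h]
    have h1 : P.yy P.hub = P.y 0 := rfl
    have h2 : P.dg P.hub = 1 := if_pos (show 0 < P.B by omega)
    rw [h1, h2, y_zero]
    have h3 : ∀ k, P.yd k + P.S + 2 ≤ P.B := by
      intro k
      have h3 := h.hT k
      unfold yd
      split_ifs <;> omega
    have h4 : ∑ k ∈ range (P.L + 1), (P.yd k : ℤ) ≤
        ∑ _k ∈ range (P.L + 1), ((P.B : ℤ) - 1 - (P.S + 1)) := by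
      refine sum_le_sum fun k _ => ?_
      have := h3 k
      omega
    rw [sum_const, card_range, nsmul_eq_mul, mul_sub] at h4
    have h5 : (1 : ℤ) * (P.S + 1) ≤ ((P.L + 1 : ℕ) : ℤ) * (P.S + 1) :=
      mul_le_mul_of_nonneg_right (by omega) (by positivity)
    push_cast at *
    linarith
  · intro hs
    have h1 : fire P.mm P.yy P.hub = P.yy + Lap P.mm (P.per - Pi.single P.hub 1) := by
      rw [fire_eq, map_sub, Lap_per h]
      abel
    rw [h1]
    refine reaches_of_no_obstruction hm ?_ _ ?_
    · intro u hu0 hu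
      by_contra hno
      push Not at hno
      exact hs (sel_of_obstruction h u hu0 hu hno)
    · intro v
      have h2 := pp_pos h v
      have h3 : P.per v = P.pp v := rfl
      rw [Pi.zero_apply, Pi.sub_apply, h3, Pi.single_apply]
      split_ifs <;> linarith

end Par

end Pool.Agent.helper506_cf
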