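import Pool.Agent.helper506_cf.Core

/-!
# The period vector, and the converse
-/

set_option autoImplicit false

namespace Pool.Agent.helper506_cf

open Finset

namespace Par

/-- a number -/
def Q (P : Par) : ℤ := ∑ k ∈ range (P.L + 1), (P.e k : ℤ) * (P.B : ℤ) ^ (P.L - k - P.N)

/-- the period vector on the chain -/
def pc (P : Par) (k : ℕ) : ℤ :=
  if k < P.N then P.Q * (P.B : ℤ) ^ (P.N - 1 - k) else (P.B : ℤ) ^ (P.L - k)

/-- the period vector -/
def pp (P : Par) (v : ℕ) : ℤ :=
  if v = 0 then (P.B : ℤ) ^ (P.L - P.N + 1) - P.Q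
  else if v < P.B then ∑ k ∈ range (P.L + 1), (if v < P.B - P.e k then P.pc k else 0)
  else P.pc (v - P.B)

variable {P : Par}

theorem pp_chain (hB : 1 ≤ P.B) (k : ℕ) : P.pp (P.B + k) = P.pc k := by
  unfold pp
  rw [if_neg (by omega), if_neg (by omega), Nat.add_sub_cancel_left]

theorem Q_pos (h : P.Good) : 1 ≤ P.Q := by
  obtain ⟨k, hk⟩ := h.hE
  have h1 := h.he k hk
  have hB := h.hB
  have h2 : (P.e k : ℤ) * (P.B : ℤ) ^ (P.L - k - P.N) ≤ P.Q :=
    single_le_sum (f := fun k => (P.e k : ℤ) * (P.B : ℤ) ^ (P.L - k - P.N))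
      (fun _ _ => by positivity) (mem_range.2 (by omega))
  rw [hk] at h2
  have h3 : (1 : ℤ) ≤ (P.B : ℤ) ^ (P.L - k - P.N) := one_le_pow₀ (by omega)
  push_cast at h2
  linarith

theorem Q_lt (h : P.Good) : P.Q < (P.B : ℤ) ^ (P.L - P.N + 1) := by
  have hB := h.hB
  have h1 : P.Q ≤ ∑ _k ∈ range (P.L + 1), (P.B : ℤ) ^ (P.L - P.N) := by
    refine sum_le_sum fun k _ => ?_
    have h2 : (P.B : ℤ) ^ (P.L - k - P.N) ≤ (P.B : ℤ) ^ (P.L - P.N) :=
      pow_le_pow_right₀ (by omega) (by omega)
    have h3 := h.he1 k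
    have h4 : (0 : ℤ) ≤ (P.B : ℤ) ^ (P.L - k - P.N) := by positivity
    have h5 : (P.e k : ℤ) ≤ 1 := by exact_mod_cast h3
    nlinarith
  rw [sum_const, card_range, nsmul_eq_mul] at h1
  have h2 : (0 : ℤ) < (P.B : ℤ) ^ (P.L - P.N) := pow_pos (by omega) _
  rw [pow_succ']
  refine lt_of_le_of_lt h1 (mul_lt_mul_of_pos_right ?_ h2)
  exact_mod_cast (by omega : P.L + 1 < P.B)

theorem pc_pos (h : P.Good) (k : ℕ) : 1 ≤ P.pc k := by
  have hB := h.hB
  have hQ := Q_pos h
  unfold pc
  split_ifs
  · have h3 : (1 : ℤ) ≤ (P.B : ℤ) ^ (P.N - 1 - k) := one_le_pow₀ (by omega)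
    nlinarith
  · exact one_le_pow₀ (by omega)

theorem pp_pos (h : P.Good) (v : ℕ) : 1 ≤ P.pp v := by
  have hB := h.hB
  have hN := h.hN
  by_cases h0 : v = 0
  · have := Q_lt h
    unfold pp
    rw [if_pos h0]
    linarith
  · by_cases h1 : v < P.B
    · unfold pp
      rw [if_neg h0, if_pos h1]
      refine le_trans (pc_pos h 0) ?_
      have h2 := single_le_sum (s := range (P.L + 1))
        (f := fun k => if v < P.B - P.e k then P.pc k else 0)
        (fun k _ => by
          have := pc_pos h k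
          split_ifs
          · linarith
          · exact le_refl _) (mem_range.2 (show 0 < P.L + 1 by omega))
      rw [h.e_zero (show 0 < P.N by omega), if_pos (by omega)] at h2
      exact h2
    · unfold pp
      rw [if_neg h0, if_neg h1]
      exact pc_pos h _

/-- the period vector, on the set of vertices -/
def per (P : Par) (v : Fin P.n) : ℤ := P.pp v

theorem Lap_per (h : P.Good) : Lap P.mm P.per = 0 := by
  have hB := h.hB
  have hN := h.hN
  have hNL := h.hNL
  have key : ∀ v : Fin P.n, (v : ℕ) ≠ 0 → Lap P.mm P.per v = 0 := by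
    intro v hv
    rw [Lap_eq h P.per P.pp (fun _ => rfl)]
    by_cases h1 : (v : ℕ) < P.B
    · rw [in_copy h P.pp (by omega) h1]
      unfold dg
      rw [if_pos h1]
      have h2 : P.pp v = ∑ k ∈ range (P.L + 1), if (v : ℕ) < P.B - P.e k then P.pc k else 0 := by
        unfold pp
        rw [if_neg hv, if_pos h1]
      rw [h2]
      have h3 : ∀ k ∈ range (P.L + 1), (if (v : ℕ) < P.B - P.e k then P.pp (P.B + k) else 0) =
          if (v : ℕ) < P.B - P.e k then P.pc k else 0 := by
        intro k _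
        rw [pp_chain (by omega)]
      rw [sum_congr rfl h3]
      simp
    · obtain ⟨k, hk⟩ := Nat.exists_eq_add_of_le (not_lt.1 h1)
      have hkL : k ≤ P.L := by
        have := v.2
        unfold n at this
        omega
      rw [hk]
      have h4 : P.dg (P.B + k) = P.B := if_neg (by omega)
      rw [h4, pp_chain (by omega)]
      cases k with
      | zero =>
        rw [add_zero, in_chain_zero h]
        simp only [pp_chain (show 1 ≤ P.B by omega)]
        have h5 : (P.B : ℤ) * P.pc 0 = ∑ k ∈ range (P.L + 1), (P.e k : ℤ) * P.pc k := by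
          unfold pc
          rw [if_pos (by omega)]
          have h6 : (P.B : ℤ) * (P.Q * (P.B : ℤ) ^ (P.N - 1 - 0)) = (P.B : ℤ) ^ P.N * P.Q := by
            obtain ⟨N', hN'⟩ : ∃ N', P.N = N' + 1 := ⟨P.N - 1, by omega⟩
            rw [hN', show N' + 1 - 1 - 0 = N' by omega]
            ring
          rw [h6]
          unfold Q
          rw [mul_sum]
          refine sum_congr rfl fun k _ => ?_
          by_cases he : P.e k = 1
          · have h7 := h.he k he
            rw [if_neg (by omega), he]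
            have h8 : P.L - k = P.N + (P.L - k - P.N) := by omega
            have h9 : (P.B : ℤ) ^ (P.L - k) = (P.B : ℤ) ^ P.N * (P.B : ℤ) ^ (P.L - k - P.N) := by
              rw [← pow_add, ← h8]
            rw [h9]
            push_cast
            ring
          · have h7 := h.he1 k
            have h8 : P.e k = 0 := by omega
            rw [h8]
            simp
        rw [h5, sub_self]
      | succ k =>
        rw [in_chain h P.pp (by omega), pp_chain (by omega)]
        by_cases h5 : k + 1 = P.N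
        · rw [if_pos h5]
          have h6 : P.pp 0 = (P.B : ℤ) ^ (P.L - P.N + 1) - P.Q := if_pos rfl
          unfold pc
          rw [h6, if_neg (by omega), if_pos (by omega), show P.N - 1 - k = 0 by omega,
            show P.L - (k + 1) = P.L - P.N by omega]
          ring
        · rw [if_neg h5]
          unfold pc
          by_cases h6 : k + 1 < P.N
          · rw [if_pos h6, if_pos (by omega),
              show P.N - 1 - k = P.N - 1 - (k + 1) + 1 by omega, pow_succ]
            ring
          · rw [if_neg h6, if_neg (by omega), show P.L - k = P.L - (k + 1) + 1 by omega, pow_succ]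
            ring
  funext v
  by_cases hv : (v : ℕ) = 0
  · have h1 := sum_Lap P.mm P.per
    rw [sum_eq_single v] at h1
    · exact h1
    · intro w _ hw
      refine key w fun h0 => hw ?_
      exact Fin.ext (by omega)
    · simp
  · exact key v hv

/-- Every vector can be replaced by a nonnegative one. -/
theorem nonneg_rep (h : P.Good) (f : Fin P.n → ℤ) :
    ∃ F : Fin P.n → ℤ, 0 ≤ F ∧ Lap P.mm F = Lap P.mm f := by
  refine ⟨f + (∑ v, |f v|) • P.per, ?_, ?_⟩
  · intro v
    have h1 := pp_pos h v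
    have h2 : |f v| ≤ ∑ v, |f v| := single_le_sum (f := fun v => |f v|)
      (fun _ _ => abs_nonneg _) (mem_univ v)
    have h3 := neg_abs_le (f v)
    have h4 : P.per v = P.pp v := rfl
    simp only [Pi.zero_apply, Pi.add_apply, Pi.smul_apply, smul_eq_mul, h4]
    nlinarith [abs_nonneg (f v)]
  · rw [map_add, map_smul, Lap_per h]
    simp

/-- A vector of the right degree and class is in the image of the Laplacian. -/
theorem exists_Lap (h : P.Good) (r : ℕ → ℤ) (h0 : ∑ v ∈ range P.n, r v = 0)
    (h1 : (P.B : ℤ) ^ P.N ∣ ∑ v ∈ range P.n, r v * P.G v) :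
    ∃ f : Fin P.n → ℤ, ∀ v : Fin P.n, Lap P.mm f v = r v := by
  have hB := h.hB
  have hN := h.hN
  have hNL := h.hNL
  set R := LinearMap.range (Lap P.mm) with hR
  obtain ⟨a, ha⟩ : ∃ a : ℕ → (Fin P.n → ℤ) ⧸ R, ∀ v : Fin P.n,
      a v = R.mkQ (Pi.single v 1) :=
    ⟨fun v => if hv : v < P.n then R.mkQ (Pi.single ⟨v, hv⟩ 1) else 0, fun v => by simp⟩
  have hrel : ∀ v < P.n, ∑ w ∈ range P.n, P.arc v w • a w = P.dg v • a v := by
    intro v hv
    have h2 : R.mkQ (Lap P.mm (Pi.single ⟨v, hv⟩ 1)) = 0 := by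
      rw [Submodule.mkQ_apply, Submodule.Quotient.mk_eq_zero, hR]
      exact LinearMap.mem_range_self _ _
    have h3 : Lap P.mm (Pi.single ⟨v, hv⟩ 1) = P.dg v • Pi.single ⟨v, hv⟩ (1 : ℤ) -
        ∑ w : Fin P.n, P.arc v w • Pi.single w (1 : ℤ) := by
      funext w
      rw [Lap_single, outDeg_eq h, Pi.sub_apply, Pi.smul_apply, Finset.sum_apply]
      have e2 : ∀ c ∈ (univ : Finset (Fin P.n)),
          (P.arc v c • (Pi.single c (1 : ℤ) : Fin P.n → ℤ)) w =
            if w = c then (P.arc v c : ℤ) else 0 := by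
        intro c _
        rw [Pi.smul_apply, Pi.single_apply]
        split_ifs <;> simp
      rw [sum_congr rfl e2, sum_ite_eq, if_pos (mem_univ _), Pi.single_apply]
      congr 1
      split_ifs <;> simp
    rw [h3, map_sub, map_sum, map_nsmul, sub_eq_zero] at h2
    rw [← Fin.sum_univ_eq_sum_range (fun w => P.arc v w • a w)]
    have h4 := ha ⟨v, hv⟩
    simp only at h4
    rw [h4, h2]
    refine sum_congr rfl fun w _ => ?_
    rw [ha w, map_nsmul]
  have c1 : a (P.B + P.N) = a 0 := by
    have h2 := hrel 0 (by unfold n; omega)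
    rw [out_zero h] at h2
    rw [h2]
    unfold dg
    rw [if_pos (by omega), one_smul]
  have c2 : ∀ r', 1 ≤ r' → r' < P.B → a r' = a 0 := by
    intro r' hr hr'
    have h2 := hrel r' (by unfold n; omega)
    rw [out_copy _ hr hr'] at h2
    rw [h2]
    unfold dg
    rw [if_pos hr', one_smul]
  have c3 : ∀ k ≤ P.L, a (P.nx (P.B + k)) + P.e k • a P.B + (P.B - P.e k - 1) • a 0 =
      P.B • a (P.B + k) := by
    intro k hk
    have h2 := hrel (P.B + k) (by unfold n; omega)
    rw [out_chain (by omega) _ hk] at h2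
    unfold dg at h2
    rw [if_neg (by omega)] at h2
    rw [← h2]
    congr 1
    have h3 : ∀ r' ∈ Ico 1 (P.B - P.e k), a r' = a 0 := by
      intro r' hr
      rw [mem_Ico] at hr
      exact c2 r' hr.1 (by omega)
    rw [sum_congr rfl h3, sum_const, Nat.card_Ico]
  have c4 : ∀ k ≤ P.L, a (P.B + k) = a 0 - P.gg k • (a P.B - a 0) := by
    intro k
    induction k with
    | zero =>
      intro _
      rw [add_zero, show P.gg 0 = -1 from rfl]
      module
    | succ k ih =>
      intro hk
      have h2 := c3 k (by omega)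
      rw [nx_lt (by omega), ih (by omega)] at h2
      have h3 : a (P.B + (k + 1)) = (P.B : ℤ) • (a 0 - P.gg k • (a P.B - a 0)) -
          (P.e k : ℤ) • a P.B - ((P.B : ℤ) - P.e k - 1) • a 0 := by
        have h4 : (P.B : ℤ) • (a 0 - P.gg k • (a P.B - a 0)) =
            P.B • (a 0 - P.gg k • (a P.B - a 0)) := natCast_zsmul _ _
        have h5 : (P.e k : ℤ) • a P.B = P.e k • a P.B := natCast_zsmul _ _
        have h6 : ((P.B : ℤ) - P.e k - 1) • a 0 = (P.B - P.e k - 1) • a 0 := by
          have h7 := h.he1 k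
          rw [← natCast_zsmul]
          congr 1
          omega
        rw [h4, h5, h6, ← h2]
        abel
      rw [h3, show P.gg (k + 1) = (P.B : ℤ) * P.gg k + P.e k from rfl]
      module
  have c5 : ((P.B : ℤ) ^ P.N) • (a P.B - a 0) = 0 := by
    have h2 := c4 P.N hNL
    rw [c1, gg_small h le_rfl] at h2
    have h3 : (P.B : ℤ) ^ P.N • (a P.B - a 0) =
        (a 0 - (-(P.B : ℤ) ^ P.N) • (a P.B - a 0)) - a 0 := by module
    rw [h3, ← h2, sub_self]
  have h2 : R.mkQ (fun v : Fin P.n => r v) = 0 := by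
    have h3 : (fun v : Fin P.n => r v) = ∑ w : Fin P.n, r w • Pi.single w (1 : ℤ) := by
      funext v
      simp [Finset.sum_apply, Pi.single_apply]
    rw [h3, map_sum]
    have h4 : ∀ w ∈ (univ : Finset (Fin P.n)), R.mkQ (r w • Pi.single w (1 : ℤ)) =
        r w • a w := by
      intro w _
      rw [map_smul, ha w]
    rw [sum_congr rfl h4, Fin.sum_univ_eq_sum_range (fun w => r w • a w)]
    have h5 : ∀ v ∈ range P.n, r v • a v = r v • a 0 - (r v * P.G v) • (a P.B - a 0) := by
      intro v hv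
      rw [mem_range] at hv
      have h6 : a v = a 0 - P.G v • (a P.B - a 0) := by
        by_cases h7 : v < P.B
        · rw [G_lt h7, zero_smul, sub_zero]
          by_cases h8 : v = 0
          · rw [h8]
          · exact c2 v (by omega) h7
        · obtain ⟨k, rfl⟩ := Nat.exists_eq_add_of_le (not_lt.1 h7)
          rw [G_chain]
          exact c4 k (by unfold n at hv; omega)
      rw [h6]
      have h9 : ∀ x : (Fin P.n → ℤ) ⧸ R, x = x := fun _ => rfl
      module
    rw [sum_congr rfl h5, sum_sub_distrib, ← sum_smul, ← sum_smul, h0, zero_smul, zero_sub]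
    obtain ⟨c, hc⟩ := h1
    rw [hc, mul_comm, mul_smul, c5, smul_zero, neg_zero]
  rw [Submodule.mkQ_apply, Submodule.Quotient.mk_eq_zero, hR, LinearMap.mem_range] at h2
  obtain ⟨f, hf⟩ := h2
  exact ⟨f, fun v => by rw [hf]⟩

theorem stable_of_sel (h : P.Good) (hs : P.Sel) :
    ∃ F : Fin P.n → ℤ, 0 ≤ F ∧ Stable P.mm (P.yy - Lap P.mm F) := by
  have hB := h.hB
  have hN := h.hN
  have hNL := h.hNL
  obtain ⟨σ, h0, h1⟩ := hs
  set s : ℕ → ℤ := fun v => if P.B + P.N ≤ v then (σ (v - P.B) : ℤ) else 0 with hsdef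
  have s1 : ∀ k, P.N ≤ k → s (P.B + k) = σ k := by
    intro k hk
    rw [hsdef]
    simp only
    rw [if_pos (by omega), Nat.add_sub_cancel_left]
  have s0 : ∀ v, v < P.B + P.N → s v = 0 := by
    intro v hv
    rw [hsdef]
    simp only
    rw [if_neg (by omega)]
  have hsum : ∀ w : ℕ → ℤ, ∑ v ∈ range P.n, s v * w v =
      ∑ k ∈ Ico P.N (P.L + 1), (σ k : ℤ) * w (P.B + k) := by
    intro w
    rw [sum_n (by omega), s0 0 (by omega), zero_mul, zero_add]
    have h2 : ∑ r ∈ Ico 1 P.B, s r * w r = 0 := by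
      refine sum_eq_zero fun r hr => ?_
      rw [mem_Ico] at hr
      rw [s0 r (by omega), zero_mul]
    rw [h2, zero_add, ← sum_range_add_sum_Ico _ (show P.N ≤ P.L + 1 by omega)]
    have h3 : ∑ k ∈ range P.N, s (P.B + k) * w (P.B + k) = 0 := by
      refine sum_eq_zero fun k hk => ?_
      rw [mem_range] at hk
      rw [s0 _ (by omega), zero_mul]
    rw [h3, zero_add]
    refine sum_congr rfl fun k hk => ?_
    rw [mem_Ico] at hk
    rw [s1 k hk.1]
  have hdeg : ∑ v ∈ range P.n, (s v - P.bb v) = 0 := by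
    rw [sum_sub_distrib, sum_bb h]
    have h2 := hsum (fun _ => 1)
    simp only [mul_one] at h2
    rw [h2, ← h0]
    push_cast
    ring
  have hcls : (P.B : ℤ) ^ P.N ∣ ∑ v ∈ range P.n, (s v - P.bb v) * P.G v := by
    simp only [sub_mul, sum_sub_distrib]
    have h2 := sum_bbG h
    have h3 : (P.B : ℤ) ^ P.N ∣ ∑ v ∈ range P.n, s v * P.G v -
        ∑ j ∈ range P.N, (P.T j : ℤ) * (P.B : ℤ) ^ j := by
      rw [hsum]
      have h7 : ∑ j ∈ range P.N, (P.T j : ℤ) *
          (P.B : ℤ) ^ j = ∑ k ∈ Ico P.N (P.L + 1), (σ k : ℤ) *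
            ∑ j ∈ range P.N, (P.e (k - 1 - j) : ℤ) * (P.B : ℤ) ^ j := by
        simp only [mul_sum]
        rw [sum_comm]
        refine sum_congr rfl fun j hj => ?_
        rw [mem_range] at hj
        rw [← h1 j hj]
        push_cast
        rw [sum_mul]
        refine sum_congr rfl fun k _ => ?_
        ring
      rw [h7, ← sum_sub_distrib]
      refine dvd_sum fun k hk => ?_
      rw [mem_Ico] at hk
      rw [← mul_sub, G_chain]
      exact (gg_large hk.1).mul_left _
    have h4 := dvd_sub h3 h2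
    refine h4.trans (Dvd.intro 1 ?_)
    ring
  obtain ⟨f, hf⟩ := exists_Lap h (fun v => s v - P.bb v) hdeg hcls
  obtain ⟨F, hF0, hF⟩ := nonneg_rep h f
  refine ⟨F, hF0, fun v => ?_⟩
  rw [Pi.sub_apply, hF, hf, outDeg_eq h]
  have h3 : P.yy v = P.y v := rfl
  have h4 : 0 ≤ s v := by
    rw [hsdef]
    simp only
    split_ifs
    · positivity
    · exact le_refl _
  rw [h3]
  unfold bb
  linarith

end Par

end Pool.Agent.helper506_cf
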