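import Pool.Agent.helper506_cf.Red
import Pool.Agent.helper506_sr.Pol

/-!
# The reductions are computable in polynomial time
-/

set_option autoImplicit false

namespace Pool.Agent.helper506_cf

open Pool.Agent.NPC Pool.Agent.helper506_sr

section

variable {α β : Type} [TEnc α] [TEnc β] {φ : α → List Cl} {i t k u v : α → ℕ}

theorem poly_natCast {n : α → ℕ} (hn : Poly n) : Poly (fun a => (n a : ℤ)) := by
  refine NPC.Poly.of_toT ?_
  refine (NPC.Poly.toT' (NPC.Poly.pair (NPC.Poly.const false) hn)).congr fun a => ?_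
  have h1 : decide (((n a : ℕ) : ℤ) < 0) = false := by
    rw [decide_eq_false_iff_not]
    exact not_lt.2 (Int.natCast_nonneg _)
  show toT (false, n a) = toT (decide (((n a : ℕ) : ℤ) < 0), ((n a : ℕ) : ℤ).natAbs)
  rw [h1, Int.natAbs_natCast]

theorem upoly_o3 (hφ : Poly φ) : UPoly (fun a => o3 (φ a)) :=
  UPoly.mul (UPoly.const 3) (UPoly.length hφ)

theorem upoly_cN (hφ : Poly φ) : UPoly (fun a => cN (φ a)) :=
  UPoly.add (UPoly.add (UPoly.length hφ) (UPoly.mul (upoly_o3 hφ) (upoly_o3 hφ))) (UPoly.const 2)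

theorem upoly_cM (hφ : Poly φ) : UPoly (fun a => cM (φ a)) :=
  UPoly.add (UPoly.add (upoly_o3 hφ) (UPoly.mul (upoly_o3 hφ) (upoly_o3 hφ))) (UPoly.const 1)

theorem upoly_cL (hφ : Poly φ) : UPoly (fun a => (2 * cM (φ a) + 1) * cN (φ a)) :=
  UPoly.mul (UPoly.add (UPoly.mul (UPoly.const 2) (upoly_cM hφ)) (UPoly.const 1)) (upoly_cN hφ)

theorem upoly_cB (hφ : Poly φ) : UPoly (fun a => cB (φ a)) :=
  UPoly.add (UPoly.add (UPoly.mul (UPoly.const 2) (upoly_cN hφ)) (upoly_cL hφ)) (UPoly.const 4)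

theorem upoly_n (hφ : Poly φ) : UPoly (fun a => (parOf (φ a)).n) :=
  UPoly.add (UPoly.add (upoly_cB hφ) (upoly_cL hφ)) (UPoly.const 1)

theorem poly_cD (hφ : Poly φ) (hi : Poly i) (ht : Poly t) :
    Poly (fun a => cD (φ a) (i a) (t a)) := by
  have c0 : Poly (fun _ : α => 0) := NPC.Poly.const 0
  have c1 : Poly (fun _ : α => 1) := NPC.Poly.const 1
  have hN := (upoly_cN hφ).toPoly
  have ho := (upoly_o3 hφ).toPoly
  have hl : Poly (fun a => (φ a).length) := NPC.Poly.length hφ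
  have hq : Poly (fun a => t a - (φ a).length - 1) := NPC.Poly.sub (NPC.Poly.sub ht hl) c1
  have hqa : Poly (fun a => (t a - (φ a).length - 1) / o3 (φ a)) := NPC.Poly.div hq ho
  have hqb : Poly (fun a => (t a - (φ a).length - 1) % o3 (φ a)) := NPC.Poly.mod hq ho
  refine NPC.Poly.ite (p := fun a => t a = 0 ∨ t a = cN (φ a) - 1)
    (NPC.Poly.decide_or (NPC.Poly.decide_eq ht c0)
      (NPC.Poly.decide_eq ht (NPC.Poly.sub hN c1))) c1 ?_
  refine NPC.Poly.ite (p := fun a => i a < o3 (φ a)) (NPC.Poly.decide_lt hi ho) ?_ ?_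
  · refine NPC.Poly.ite (p := fun a => t a ≤ (φ a).length) (NPC.Poly.decide_le ht hl) ?_ ?_
    · exact NPC.Poly.ite (p := fun a => i a / 3 = t a - 1)
        (NPC.Poly.decide_eq (NPC.Poly.div hi (NPC.Poly.const 3)) (NPC.Poly.sub ht c1)) c1 c0
    · exact NPC.Poly.ite (p := fun a =>
        Opp (litOf (φ a) ((t a - (φ a).length - 1) / o3 (φ a)))
          (litOf (φ a) ((t a - (φ a).length - 1) % o3 (φ a))) ∧
        (i a = (t a - (φ a).length - 1) / o3 (φ a) ∨ i a = (t a - (φ a).length - 1) % o3 (φ a)))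
        (NPC.Poly.decide_and (poly_opp (poly_litOf hφ hqa) (poly_litOf hφ hqb))
          (NPC.Poly.decide_or (NPC.Poly.decide_eq hi hqa) (NPC.Poly.decide_eq hi hqb))) c1 c0
  · exact NPC.Poly.ite (p := fun a => t a = (φ a).length + 1 + (i a - o3 (φ a)))
      (NPC.Poly.decide_eq ht (NPC.Poly.add (NPC.Poly.add hl c1) (NPC.Poly.sub hi ho))) c1 c0

theorem poly_cT (hφ : Poly φ) (ht : Poly t) : Poly (fun a => cT (φ a) (t a)) := by
  have c0 : Poly (fun _ : α => 0) := NPC.Poly.const 0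
  have c1 : Poly (fun _ : α => 1) := NPC.Poly.const 1
  have hN := (upoly_cN hφ).toPoly
  exact NPC.Poly.ite (p := fun a => t a = 0 ∨ t a = cN (φ a) - 1)
    (NPC.Poly.decide_or (NPC.Poly.decide_eq ht c0)
      (NPC.Poly.decide_eq ht (NPC.Poly.sub hN c1))) hN c1

theorem poly_e (hφ : Poly φ) (hk : Poly k) : Poly (fun a => (parOf (φ a)).e (k a)) := by
  have c2 : Poly (fun _ : α => 2) := NPC.Poly.const 2
  have hN := (upoly_cN hφ).toPoly
  have hq : Poly (fun a => k a / cN (φ a)) := NPC.Poly.div hk hN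
  exact NPC.Poly.ite (p := fun a => (k a / cN (φ a)) % 2 = 1 ∧ k a / cN (φ a) / 2 < cM (φ a))
    (NPC.Poly.decide_and (NPC.Poly.decide_eq (NPC.Poly.mod hq c2) (NPC.Poly.const 1))
      (NPC.Poly.decide_lt (NPC.Poly.div hq c2) (upoly_cM hφ).toPoly))
    (poly_cD hφ (NPC.Poly.div hq c2) (NPC.Poly.mod hk hN)) (NPC.Poly.const 0)

theorem poly_E (hφ : Poly φ) : Poly (fun a => (parOf (φ a)).E) := by
  have h1 : Poly (fun a => (List.range ((2 * cM (φ a) + 1) * cN (φ a) + 1)).map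
      (fun k => (parOf (φ a)).e k)) :=
    NPC.Poly.map (F := fun a k => (parOf (φ a)).e k)
      (UPoly.add (upoly_cL hφ) (UPoly.const 1)).range
      (poly_e (hφ.comp (NPC.Poly.fst NPC.Poly.id)) (NPC.Poly.snd NPC.Poly.id))
  refine (NPC.Poly.sum h1).congr fun a => ?_
  rw [Par.sum_range_list]
  rfl

theorem poly_yd (hφ : Poly φ) (hk : Poly k) : Poly (fun a => (parOf (φ a)).yd (k a)) := by
  have c0 : Poly (fun _ : α => 0) := NPC.Poly.const 0
  have hN := (upoly_cN hφ).toPoly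
  exact NPC.Poly.ite (p := fun a => k a = 0) (NPC.Poly.decide_eq hk c0)
    (NPC.Poly.sub (NPC.Poly.add hN (poly_E hφ)) (NPC.Poly.const 1))
    (NPC.Poly.ite (p := fun a => k a < cN (φ a)) (NPC.Poly.decide_lt hk hN) (poly_cT hφ hk) c0)

theorem poly_yn (hφ : Poly φ) (hv : Poly v) : Poly (fun a => (parOf (φ a)).yn (v a)) := by
  have c0 : Poly (fun _ : α => 0) := NPC.Poly.const 0
  have c1 : Poly (fun _ : α => 1) := NPC.Poly.const 1
  have hN := (upoly_cN hφ).toPoly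
  have hB := (upoly_cB hφ).toPoly
  have hL1 := UPoly.add (upoly_cL hφ) (UPoly.const 1)
  have h1 : Poly (fun a => (List.range ((2 * cM (φ a) + 1) * cN (φ a) + 1)).map
      (fun k => (parOf (φ a)).yd k)) :=
    NPC.Poly.map (F := fun a k => (parOf (φ a)).yd k) hL1.range
      (poly_yd (hφ.comp (NPC.Poly.fst NPC.Poly.id)) (NPC.Poly.snd NPC.Poly.id))
  exact NPC.Poly.ite (p := fun a => v a = 0) (NPC.Poly.decide_eq hv c0)
    (NPC.Poly.sub (NPC.Poly.sub (NPC.Poly.mul hL1.toPoly (NPC.Poly.sub hB c1)) hN)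
      (NPC.Poly.sum h1))
    (NPC.Poly.ite (p := fun a => v a < cB (φ a)) (NPC.Poly.decide_lt hv hB) c0
      (poly_yd hφ (NPC.Poly.sub hv hB)))

theorem poly_xn (hφ : Poly φ) (hv : Poly v) : Poly (fun a => (parOf (φ a)).xn (v a)) := by
  have c0 : Poly (fun _ : α => 0) := NPC.Poly.const 0
  have c1 : Poly (fun _ : α => 1) := NPC.Poly.const 1
  have hN := (upoly_cN hφ).toPoly
  have hB := (upoly_cB hφ).toPoly
  exact NPC.Poly.ite (p := fun a => v a = 0) (NPC.Poly.decide_eq hv c0)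
    (NPC.Poly.sub (poly_yn hφ c0) c1)
    (NPC.Poly.ite (p := fun a => v a = cB (φ a) + cN (φ a))
      (NPC.Poly.decide_eq hv (NPC.Poly.add hB hN))
      (NPC.Poly.add (poly_yn hφ hv) c1) (poly_yn hφ hv))

theorem poly_arc (hφ : Poly φ) (hu : Poly u) (hv : Poly v) :
    Poly (fun a => (parOf (φ a)).arc (u a) (v a)) := by
  have c0 : Poly (fun _ : α => 0) := NPC.Poly.const 0
  have c1 : Poly (fun _ : α => 1) := NPC.Poly.const 1
  have hN := (upoly_cN hφ).toPoly
  have hB := (upoly_cB hφ).toPoly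
  have hL := (upoly_cL hφ).toPoly
  have hnx : Poly (fun a => (parOf (φ a)).nx (u a)) :=
    NPC.Poly.ite (p := fun a => u a < cB (φ a) + (2 * cM (φ a) + 1) * cN (φ a))
      (NPC.Poly.decide_lt hu (NPC.Poly.add hB hL)) (NPC.Poly.add hu c1) c0
  have he : Poly (fun a => (parOf (φ a)).e (u a - cB (φ a))) := poly_e hφ (NPC.Poly.sub hu hB)
  refine NPC.Poly.ite (p := fun a => u a = 0) (NPC.Poly.decide_eq hu c0) ?_ ?_
  · exact NPC.Poly.ite (p := fun a => v a = cB (φ a) + cN (φ a))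
      (NPC.Poly.decide_eq hv (NPC.Poly.add hB hN)) c1 c0
  · refine NPC.Poly.ite (p := fun a => u a < cB (φ a)) (NPC.Poly.decide_lt hu hB) ?_ ?_
    · exact NPC.Poly.ite (p := fun a => v a = 0) (NPC.Poly.decide_eq hv c0) c1 c0
    · refine NPC.Poly.add (NPC.Poly.add ?_ ?_) ?_
      · exact NPC.Poly.ite (p := fun a => v a = (parOf (φ a)).nx (u a))
          (NPC.Poly.decide_eq hv hnx) c1 c0
      · exact NPC.Poly.ite (p := fun a => v a = cB (φ a)) (NPC.Poly.decide_eq hv hB) he c0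
      · exact NPC.Poly.ite
          (p := fun a => 1 ≤ v a ∧ v a < cB (φ a) - (parOf (φ a)).e (u a - cB (φ a)))
          (NPC.Poly.decide_and (NPC.Poly.decide_le c1 hv)
            (NPC.Poly.decide_lt hv (NPC.Poly.sub hB he))) c1 c0

theorem poly_mat (hφ : Poly φ) : Poly (fun a => (parOf (φ a)).mat) := by
  have g1 : Poly (fun x : (α × ℕ) × ℕ => x.1.1) := NPC.Poly.fst (NPC.Poly.fst NPC.Poly.id)
  have g2 : Poly (fun x : (α × ℕ) × ℕ => x.1.2) := NPC.Poly.snd (NPC.Poly.fst NPC.Poly.id)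
  have g3 : Poly (fun x : (α × ℕ) × ℕ => x.2) := NPC.Poly.snd NPC.Poly.id
  refine NPC.Poly.map (F := fun a u => (List.range (parOf (φ a)).n).map
    (fun v => (parOf (φ a)).arc u v)) (upoly_n hφ).range ?_
  refine NPC.Poly.map (F := fun (x : α × ℕ) v => (parOf (φ x.1)).arc x.2 v)
    (((upoly_n hφ).comp (NPC.Poly.fst NPC.Poly.id)).range) ?_
  exact poly_arc (hφ.comp g1) g2 g3

theorem poly_yl (hφ : Poly φ) : Poly (fun a => (parOf (φ a)).yl) :=
  NPC.Poly.map (F := fun a v => ((parOf (φ a)).yn v : ℤ)) (upoly_n hφ).range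
    (poly_natCast (poly_yn (hφ.comp (NPC.Poly.fst NPC.Poly.id)) (NPC.Poly.snd NPC.Poly.id)))

theorem poly_xl (hφ : Poly φ) : Poly (fun a => (parOf (φ a)).xl) :=
  NPC.Poly.map (F := fun a v => ((parOf (φ a)).xn v : ℤ)) (upoly_n hφ).range
    (poly_natCast (poly_xn (hφ.comp (NPC.Poly.fst NPC.Poly.id)) (NPC.Poly.snd NPC.Poly.id)))

end

theorem poly_redH : Poly redH :=
  NPC.Poly.pair (poly_mat NPC.Poly.id) (poly_yl NPC.Poly.id)

theorem poly_redR : Poly redR :=
  NPC.Poly.pair (poly_mat NPC.Poly.id)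
    (NPC.Poly.pair (poly_xl NPC.Poly.id) (poly_yl NPC.Poly.id))

/-- Hardness of the complement gives `coNP`-hardness. -/
theorem coNPHardP_of_hardI {α : Type} [TEnc α] {P : α → Prop} (hP : HardI (fun a => ¬ P a)) :
    CoNPHardP P := by
  intro L hL
  obtain ⟨f, hf, hfL⟩ := hP _ hL
  refine ⟨fun x => bits (f x), PC.toPolyTime hf, fun x => ?_⟩
  have h1 := hfL x
  rw [Set.mem_compl_iff] at h1
  have h2 : bits (f x) ∈ lang P ↔ P (f x) := by
    constructor
    · rintro ⟨a, ha, hPa⟩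
      rw [bits_injective ha] at hPa
      exact hPa
    · exact fun h => ⟨f x, rfl, h⟩
  rw [h2]
  tauto

end Pool.Agent.helper506_cf
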