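import Pool.Agent.helper506_cf.Items

/-!
# The instances
-/

set_option autoImplicit false

namespace Pool.Agent.helper506_cf

open Finset Pool.Agent.NPC Pool.Agent.helper506_sr

namespace Par

/-- the initial distribution, as a function with values in the natural numbers -/
def yn (P : Par) (v : ℕ) : ℕ :=
  if v = 0 then (P.L + 1) * (P.B - 1) - P.S - ((List.range (P.L + 1)).map P.yd).sum
  else if v < P.B then 0 else P.yd (v - P.B)

/-- the distribution after firing the hub -/
def xn (P : Par) (v : ℕ) : ℕ :=
  if v = 0 then P.yn 0 - 1 else if v = P.B + P.N then P.yn v + 1 else P.yn v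

/-- the adjacency matrix -/
def mat (P : Par) : List (List ℕ) :=
  (List.range P.n).map (fun u => (List.range P.n).map (fun v => P.arc u v))

/-- the initial distribution -/
def yl (P : Par) : List ℤ := (List.range P.n).map (fun v => (P.yn v : ℤ))

/-- the distribution after firing the hub -/
def xl (P : Par) : List ℤ := (List.range P.n).map (fun v => (P.xn v : ℤ))

variable {P : Par}

theorem mat_length : P.mat.length = P.n := by simp [mat]

theorem sum_range_list (F : ℕ → ℕ) (n : ℕ) : ((List.range n).map F).sum = ∑ k ∈ range n, F k := by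
  induction n with
  | zero => simp
  | succ n ih => rw [List.range_succ, List.map_append, List.sum_append, ih, sum_range_succ]; simp

theorem yd_bound (h : P.Good) (k : ℕ) : P.yd k + P.S + 2 ≤ P.B := by
  have h3 := h.hT k
  have hB := h.hB
  have hS := h.hS
  have hSE := h.hSE
  unfold yd
  split_ifs <;> omega

theorem sum_yd (h : P.Good) :
    ∑ k ∈ range (P.L + 1), P.yd k + P.S + 1 ≤ (P.L + 1) * (P.B - 1) := by
  have h4 : ∑ k ∈ range (P.L + 1), (P.yd k + (P.S + 1)) ≤ ∑ _k ∈ range (P.L + 1), (P.B - 1) := by
    refine sum_le_sum fun k _ => ?_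
    have := yd_bound h k
    omega
  rw [sum_const, card_range, smul_eq_mul, sum_add_distrib, sum_const, card_range,
    smul_eq_mul] at h4
  have h5 : 1 * (P.S + 1) ≤ (P.L + 1) * (P.S + 1) := Nat.mul_le_mul_right _ (by omega)
  omega

theorem yn_eq (h : P.Good) (v : ℕ) : (P.yn v : ℤ) = P.y v := by
  have hB := h.hB
  unfold yn y
  split_ifs
  · rw [sum_range_list]
    have h1 := sum_yd h
    have h2 : (P.L + 1) * (P.B - 1) - P.S - ∑ k ∈ range (P.L + 1), P.yd k =
        (P.L + 1) * (P.B - 1) - (P.S + ∑ k ∈ range (P.L + 1), P.yd k) := by omega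
    rw [h2, Nat.cast_sub (by omega)]
    push_cast
    rw [Nat.cast_sub (by omega)]
    push_cast
    ring
  · simp
  · rfl

theorem yn_pos (h : P.Good) : 1 ≤ P.yn 0 := by
  have h1 := sum_yd h
  unfold yn
  rw [if_pos rfl, sum_range_list]
  omega

theorem xn_eq (h : P.Good) (v : Fin P.n) : (P.xn v : ℤ) = fire P.mm P.yy P.hub v := by
  have hB := h.hB
  have h1 : P.yy v = P.y v := rfl
  have h2 : P.mm P.hub v = P.arc 0 v := rfl
  unfold fire
  rw [h1, h2, ← yn_eq h, arc_zero, outDeg_eq h]
  have h3 : P.dg P.hub = 1 := if_pos (show 0 < P.B by omega)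
  have h4 := yn_pos h
  rw [h3]
  unfold xn
  by_cases h5 : (v : ℕ) = 0
  · have h6 : v = P.hub := Fin.ext h5
    rw [if_pos h5, if_pos h6, h5, if_neg (by omega), Nat.cast_sub h4]
    push_cast
    ring
  · have h6 : v ≠ P.hub := fun h6 => h5 (congrArg Fin.val h6)
    rw [if_neg h5, if_neg h6]
    split_ifs <;> push_cast <;> ring

theorem getD_map_range {β : Type} (F : ℕ → β) (d : β) {n v : ℕ} (hv : v < n) :
    ((List.range n).map F).getD v d = F v := by
  rw [List.getD_eq_getElem _ _ (by simpa using hv)]
  simp

/-- the identification of the vertex sets -/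
def cst (P : Par) : Fin P.mat.length ≃ Fin P.n := finCongr mat_length

theorem mult_mat (u v : Fin P.mat.length) : mult P.mat u v = P.mm (P.cst u) (P.cst v) := by
  have hu : (u : ℕ) < P.n := by rw [← mat_length]; exact u.2
  have hv : (v : ℕ) < P.n := by rw [← mat_length]; exact v.2
  unfold mult mat
  rw [getD_map_range _ _ hu, getD_map_range _ _ hv]
  rfl

theorem isSimple_mat (h : P.Good) : IsSimpleDigraph P.mat := by
  refine ⟨⟨?_, ?_⟩, ?_⟩
  · intro r hr
    unfold mat at hr
    rw [List.mem_map] at hr
    obtain ⟨u, -, rfl⟩ := hr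
    simp [mat_length]
  · intro v
    rw [mult_mat]
    exact arc_self h _
  · intro u v
    rw [mult_mat]
    exact arc_le h _ _

end Par

section transfer

variable {V W : Type} [Fintype V] [DecidableEq V] [Fintype W] [DecidableEq W]

theorem outDeg_transfer (e : V ≃ W) (m : V → V → ℕ) (m' : W → W → ℕ)
    (hm : ∀ u v, m u v = m' (e u) (e v)) (v : V) : outDeg m v = outDeg m' (e v) := by
  unfold outDeg
  rw [← Equiv.sum_comp e]
  exact sum_congr rfl fun w _ => hm v w

theorem fire_transfer (e : V ≃ W) (m : V → V → ℕ) (m' : W → W → ℕ)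
    (hm : ∀ u v, m u v = m' (e u) (e v)) (x : W → ℤ) (v : V) :
    fire m (x ∘ e) v = fire m' x (e v) ∘ e := by
  funext w
  unfold fire
  simp only [Function.comp_apply, outDeg_transfer e m m' hm, hm, e.injective.eq_iff]

theorem step_transfer (e : V ≃ W) (m : V → V → ℕ) (m' : W → W → ℕ)
    (hm : ∀ u v, m u v = m' (e u) (e v)) (x y : W → ℤ) :
    Step m (x ∘ e) (y ∘ e) ↔ Step m' x y := by
  constructor
  · rintro ⟨v, hv, hv'⟩
    refine ⟨e v, ?_, hv'⟩
    rw [fire_transfer e m m' hm] at hv
    funext w
    have := congrFun hv (e.symm w)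
    simpa using this
  · rintro ⟨w, hw, hw'⟩
    refine ⟨e.symm w, ?_, ?_⟩
    · rw [fire_transfer e m m' hm, e.apply_symm_apply, hw]
    · simpa using hw'

theorem terminating_transfer (e : V ≃ W) (m : V → V → ℕ) (m' : W → W → ℕ)
    (hm : ∀ u v, m u v = m' (e u) (e v)) (x : W → ℤ) :
    Terminating m (x ∘ e) ↔ Terminating m' x := by
  unfold Terminating
  rw [not_iff_not]
  constructor
  · rintro ⟨s, h0, h1⟩
    refine ⟨fun i => s i ∘ e.symm, ?_, fun i => ?_⟩
    · show s 0 ∘ e.symm = x
      rw [h0]
      funext w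
      simp
    · rw [← step_transfer e m m' hm]
      have : ∀ i, (s i ∘ e.symm) ∘ e = s i := by
        intro i
        funext v
        simp
      rw [this, this]
      exact h1 i
  · rintro ⟨s, h0, h1⟩
    refine ⟨fun i => s i ∘ e, by show s 0 ∘ e = x ∘ e; rw [h0], fun i => ?_⟩
    rw [step_transfer e m m' hm]
    exact h1 i

theorem reaches_transfer (e : V ≃ W) (m : V → V → ℕ) (m' : W → W → ℕ)
    (hm : ∀ u v, m u v = m' (e u) (e v)) (x y : W → ℤ) :
    Reaches m (x ∘ e) (y ∘ e) ↔ Reaches m' x y := by
  constructor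
  · intro h
    have key : ∀ z, Relation.ReflTransGen (Step m) (x ∘ e) z →
        Relation.ReflTransGen (Step m') x (z ∘ e.symm) := by
      intro z hz
      induction hz with
      | refl =>
        have : (x ∘ e) ∘ e.symm = x := by
          funext w
          simp
        rw [this]
      | tail _ hs ih =>
        refine Relation.ReflTransGen.tail ih ?_
        rw [← step_transfer e m m' hm]
        have : ∀ z : V → ℤ, (z ∘ e.symm) ∘ e = z := by
          intro z
          funext v
          simp
        rw [this, this]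
        exact hs
    have h1 := key _ h
    have : (y ∘ e) ∘ e.symm = y := by
      funext w
      simp
    rw [this] at h1
    exact h1
  · intro h
    have key : ∀ z, Relation.ReflTransGen (Step m') x z →
        Relation.ReflTransGen (Step m) (x ∘ e) (z ∘ e) := by
      intro z hz
      induction hz with
      | refl => exact Relation.ReflTransGen.refl
      | tail _ hs ih => exact Relation.ReflTransGen.tail ih ((step_transfer e m m' hm _ _).2 hs)
    exact key _ h

end transfer

namespace Par

variable {P : Par}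

theorem chips_yl (h : P.Good) : chips P.mat.length P.yl = P.yy ∘ P.cst := by
  funext v
  have hv : (v : ℕ) < P.n := by rw [← mat_length]; exact v.2
  unfold chips yl
  rw [getD_map_range _ _ hv, yn_eq h]
  rfl

theorem chips_xl (h : P.Good) : chips P.mat.length P.xl = fire P.mm P.yy P.hub ∘ P.cst := by
  funext v
  have hv : (v : ℕ) < P.n := by rw [← mat_length]; exact v.2
  unfold chips xl
  rw [getD_map_range _ _ hv, Function.comp_apply, ← xn_eq h]
  rfl

theorem halting_iff (h : P.Good) : HaltingSimple (P.mat, P.yl) ↔ P.Sel := by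
  have h1 : HaltingSimple (P.mat, P.yl) ↔
      Terminating (mult P.mat) (chips P.mat.length P.yl) := by
    constructor
    · exact fun h => h.2.2
    · exact fun h' => ⟨isSimple_mat h, by simp [yl, mat_length], h'⟩
  rw [h1, chips_yl h, terminating_transfer P.cst _ P.mm mult_mat, terminating_iff h]

theorem reachMulti_iff (h : P.Good) : ReachMulti (P.mat, P.xl, P.yl) ↔ ¬ P.Sel := by
  have h1 : ReachMulti (P.mat, P.xl, P.yl) ↔
      Reaches (mult P.mat) (chips P.mat.length P.xl) (chips P.mat.length P.yl) := by
    constructor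
    · exact fun h => h.2.2.2
    · exact fun h' => ⟨(isSimple_mat h).1, by simp [xl, mat_length], by simp [yl, mat_length], h'⟩
  rw [h1, chips_xl h, chips_yl h, reaches_transfer P.cst _ P.mm mult_mat, reaches_iff h]

theorem reachSimple_iff (h : P.Good) : ReachSimple (P.mat, P.xl, P.yl) ↔ ¬ P.Sel := by
  rw [← reachMulti_iff h]
  exact ⟨fun h' => ⟨h'.1.1, h'.2⟩, fun h' => ⟨isSimple_mat h, h'.2⟩⟩

end Par

/-- the instance of the halting problem -/
def redH (φ : List Cl) : List (List ℕ) × List ℤ := ((parOf φ).mat, (parOf φ).yl)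

/-- the instance of the reachability problem -/
def redR (φ : List Cl) : List (List ℕ) × List ℤ × List ℤ :=
  ((parOf φ).mat, (parOf φ).xl, (parOf φ).yl)

theorem redH_iff (φ : List Cl) : SAT3 φ ↔ HaltingSimple (redH φ) :=
  (sat_iff_sel φ).trans (Par.halting_iff (parOf_good φ)).symm

theorem redR_iff (φ : List Cl) : SAT3 φ ↔ ¬ ReachSimple (redR φ) :=
  (sat_iff_sel φ).trans (by
    have := Par.reachSimple_iff (parOf_good φ)
    unfold redR
    tauto)

theorem redR_iff' (φ : List Cl) : SAT3 φ ↔ ¬ ReachMulti (redR φ) :=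
  (sat_iff_sel φ).trans (by
    have := Par.reachMulti_iff (parOf_good φ)
    unfold redR
    tauto)

end Pool.Agent.helper506_cf
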