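import Pool.Agent.helper506_cf.Obs

/-!
# The string of digits

Items are sequences of `N` digits `0` and `1` with first and last digit `1`. The string consists
of the items, separated (and preceded and followed) by `N` zeros.
-/

set_option autoImplicit false

namespace Pool.Agent.helper506_cf

open Finset

/-- the string of digits -/
def str (N M : ℕ) (D : ℕ → ℕ → ℕ) (k : ℕ) : ℕ :=
  if (k / N) % 2 = 1 ∧ k / N / 2 < M then D (k / N / 2) (k % N) else 0

theorem str_odd {N M : ℕ} {D : ℕ → ℕ → ℕ} {i t : ℕ} (hi : i < M) (ht : t < N) :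
    str N M D ((2 * i + 1) * N + t) = D i t := by
  have h1 : ((2 * i + 1) * N + t) / N = 2 * i + 1 := by
    rw [Nat.mul_comm, Nat.mul_add_div (by omega), Nat.div_eq_of_lt ht, add_zero]
  have h2 : ((2 * i + 1) * N + t) % N = t := by
    rw [Nat.mul_comm, Nat.mul_add_mod, Nat.mod_eq_of_lt ht]
  unfold str
  rw [h1, h2, if_pos ⟨by omega, by omega⟩, show (2 * i + 1) / 2 = i by omega]

theorem str_one {N M : ℕ} {D : ℕ → ℕ → ℕ} {k : ℕ} (hN : 0 < N) (h : str N M D k ≠ 0) :
    ∃ i < M, ∃ t < N, k = (2 * i + 1) * N + t ∧ D i t = str N M D k := by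
  by_cases h1 : (k / N) % 2 = 1 ∧ k / N / 2 < M
  · refine ⟨k / N / 2, h1.2, k % N, Nat.mod_lt _ hN, ?_, ?_⟩
    · have h2 : 2 * (k / N / 2) + 1 = k / N := by omega
      rw [h2, Nat.mul_comm]
      exact (Nat.div_add_mod k N).symm
    · unfold str
      rw [if_pos h1]
  · exfalso
    apply h
    unfold str
    rw [if_neg h1]

/-- A weighted sum over the aligned positions. -/
theorem sum_aligned {A : Type} [AddCommMonoid A] {N M : ℕ} (hN : 0 < N) (F : ℕ → A)
    (h0 : ∀ k, N ≤ k → k < (2 * M + 1) * N + 1 → (∀ i < M, k ≠ (2 * i + 2) * N) → F k = 0) :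
    ∑ k ∈ Ico N ((2 * M + 1) * N + 1), F k = ∑ i ∈ range M, F ((2 * i + 2) * N) := by
  have hinj : Set.InjOn (fun i => (2 * i + 2) * N) (range M : Set ℕ) := by
    intro i _ j _ hij
    have h1 : 2 * i + 2 = 2 * j + 2 := Nat.eq_of_mul_eq_mul_right hN hij
    omega
  rw [← sum_image (f := F) hinj]
  symm
  apply sum_subset
  · intro k hk
    rw [mem_image] at hk
    obtain ⟨i, hi, rfl⟩ := hk
    rw [mem_range] at hi
    rw [mem_Ico]
    constructor
    · nlinarith
    · nlinarith
  · intro k hk hk'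
    rw [mem_Ico] at hk
    refine h0 k hk.1 hk.2 fun i hi h => hk' ?_
    rw [mem_image]
    exact ⟨i, mem_range.2 hi, h.symm⟩

/-- The parameters given by a family of items. -/
def par (N M S B : ℕ) (D : ℕ → ℕ → ℕ) (T : ℕ → ℕ) : Par where
  N := N
  L := (2 * M + 1) * N
  B := B
  S := S
  e := str N M D
  T := T

/-- conditions on the items -/
structure GoodItems (N M S B : ℕ) (D : ℕ → ℕ → ℕ) (T : ℕ → ℕ) : Prop where
  hN : 2 ≤ N
  hM : 1 ≤ M
  hD : ∀ i t, D i t ≤ 1
  hD0 : ∀ i, D i 0 = 1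
  hD1 : ∀ i, D i (N - 1) = 1
  hS : 2 ≤ S
  hSN : S ≤ N
  hT : ∀ j, T j ≤ S
  hT0 : T 0 = S
  hT1 : T (N - 1) = S
  hB : 2 * S + (2 * M + 1) * N + 4 ≤ B

theorem str_le {N M S B : ℕ} {D : ℕ → ℕ → ℕ} {T : ℕ → ℕ} (h : GoodItems N M S B D T) (k : ℕ) :
    str N M D k ≤ 1 := by
  unfold str
  split_ifs
  · exact h.hD _ _
  · omega

theorem par_good {N M S B : ℕ} {D : ℕ → ℕ → ℕ} {T : ℕ → ℕ} (h : GoodItems N M S B D T) :
    (par N M S B D T).Good where
  hN := h.hN
  hNL := by
    show N ≤ (2 * M + 1) * N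
    nlinarith [h.hN]
  he1 := str_le h
  he := by
    intro k hk
    have hN := h.hN
    obtain ⟨i, hi, t, ht, rfl, -⟩ := str_one (N := N) (M := M) (D := D) (by omega)
      (by rw [show str N M D k = 1 from hk]; omega)
    show N ≤ _ ∧ _ + N ≤ (2 * M + 1) * N
    constructor
    · nlinarith
    · have h1 : (2 * i + 3) * N ≤ (2 * M + 1) * N := Nat.mul_le_mul_right _ (by omega)
      have h2 : (2 * i + 3) * N = (2 * i + 1) * N + N + N := by ring
      omega
  hE := by
    have hN := h.hN
    refine ⟨(2 * 0 + 1) * N + 0, ?_⟩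
    show str N M D _ = 1
    rw [str_odd (by have := h.hM; omega) (by omega), h.hD0]
  hS := h.hS
  hT := h.hT
  hT0 := h.hT0
  hB := h.hB
  hSE := by
    show S + ∑ k ∈ range ((2 * M + 1) * N + 1), str N M D k ≤ (2 * M + 1) * N
    have hN := h.hN
    have h1 : ∑ k ∈ range ((2 * M + 1) * N + 1), str N M D k ≤ M * N := by
      have h2 : ∑ k ∈ range ((2 * M + 1) * N + 1), str N M D k ≤
          ∑ k ∈ (range M ×ˢ range N).image (fun p : ℕ × ℕ => (2 * p.1 + 1) * N + p.2), 1 := by
        rw [← sum_filter_ne_zero]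
        refine (sum_le_sum fun k _ => str_le h k).trans ?_
        refine sum_le_sum_of_subset fun k hk => ?_
        rw [mem_filter] at hk
        obtain ⟨i, hi, t, ht, hk', -⟩ := str_one (N := N) (M := M) (D := D) (by omega) hk.2
        rw [mem_image]
        exact ⟨(i, t), mem_product.2 ⟨mem_range.2 hi, mem_range.2 ht⟩, hk'.symm⟩
      refine h2.trans ?_
      rw [sum_const, smul_eq_mul, mul_one]
      refine card_image_le.trans ?_
      rw [card_product, card_range, card_range]
    have h3 := h.hSN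
    have h4 := h.hM
    have h5 : (2 * M + 1) * N = M * N + M * N + N := by ring
    omega

/-- the condition for the items -/
def ItemSel (N M S : ℕ) (D : ℕ → ℕ → ℕ) (T : ℕ → ℕ) : Prop :=
  ∃ s : ℕ → ℕ, ∑ i ∈ range M, s i = S ∧ ∀ j < N, ∑ i ∈ range M, s i * D i (N - 1 - j) = T j

theorem str_window {N M : ℕ} {D : ℕ → ℕ → ℕ} {i j : ℕ} (hi : i < M) (hj : j < N) :
    str N M D ((2 * i + 2) * N - 1 - j) = D i (N - 1 - j) := by
  have h1 : (2 * i + 2) * N - 1 - j = (2 * i + 1) * N + (N - 1 - j) := by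
    have : (2 * i + 2) * N = (2 * i + 1) * N + N := by ring
    omega
  rw [h1, str_odd hi (by omega)]

theorem sel_iff {N M S B : ℕ} {D : ℕ → ℕ → ℕ} {T : ℕ → ℕ} (h : GoodItems N M S B D T) :
    (par N M S B D T).Sel ↔ ItemSel N M S D T := by
  have hN := h.hN
  constructor
  · rintro ⟨σ, h1, h2⟩
    change ∑ k ∈ Ico N ((2 * M + 1) * N + 1), σ k = S at h1
    change ∀ j < N, ∑ k ∈ Ico N ((2 * M + 1) * N + 1), σ k * str N M D (k - 1 - j) = T j at h2
    have key : ∀ j < N, T j = S → ∀ k ∈ Ico N ((2 * M + 1) * N + 1), σ k ≠ 0 →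
        str N M D (k - 1 - j) = 1 := by
      intro j hj hT k hk hσ
      by_contra hne
      have h3 : ∑ k ∈ Ico N ((2 * M + 1) * N + 1), σ k * str N M D (k - 1 - j) <
          ∑ k ∈ Ico N ((2 * M + 1) * N + 1), σ k := by
        refine sum_lt_sum (fun i _ => ?_) ⟨k, hk, ?_⟩
        · calc σ i * str N M D (i - 1 - j) ≤ σ i * 1 := Nat.mul_le_mul_left _ (str_le h _)
            _ = σ i := mul_one _
        · have h4 := str_le h (k - 1 - j)
          have h5 : str N M D (k - 1 - j) = 0 := by omega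
          rw [h5]
          omega
      rw [h1, h2 j hj, hT] at h3
      exact lt_irrefl _ h3
    have hal : ∀ k, N ≤ k → k < (2 * M + 1) * N + 1 → (∀ i < M, k ≠ (2 * i + 2) * N) →
        σ k = 0 := by
      intro k hk hk' hne
      by_contra hσ
      have hmem : k ∈ Ico N ((2 * M + 1) * N + 1) := mem_Ico.2 ⟨hk, hk'⟩
      have g1 := key 0 (by omega) h.hT0 k hmem hσ
      have g2 := key (N - 1) (by omega) h.hT1 k hmem hσ
      obtain ⟨i, hi, t, ht, e1, -⟩ := str_one (N := N) (M := M) (D := D) (k := k - 1 - 0)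
        (by omega) (by omega)
      obtain ⟨i', hi', t', ht', e2, -⟩ := str_one (N := N) (M := M) (D := D)
        (k := k - 1 - (N - 1)) (by omega) (by omega)
      have e3 : (2 * i + 1) * N + t = (2 * i' + 1) * N + t' + (N - 1) := by omega
      rcases lt_trichotomy i i' with h3 | h3 | h3
      · have h4 : (2 * i + 1) * N + 2 * N ≤ (2 * i' + 1) * N := by
          have : (2 * i + 3) * N ≤ (2 * i' + 1) * N := Nat.mul_le_mul_right _ (by omega)
          have h5 : (2 * i + 3) * N = (2 * i + 1) * N + 2 * N := by ring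
          omega
        omega
      · subst h3
        apply hne i hi
        have : (2 * i + 2) * N = (2 * i + 1) * N + N := by ring
        omega
      · have h4 : (2 * i' + 1) * N + 2 * N ≤ (2 * i + 1) * N := by
          have : (2 * i' + 3) * N ≤ (2 * i + 1) * N := Nat.mul_le_mul_right _ (by omega)
          have h5 : (2 * i' + 3) * N = (2 * i' + 1) * N + 2 * N := by ring
          omega
        omega
    refine ⟨fun i => σ ((2 * i + 2) * N), ?_, ?_⟩
    · rw [← h1, sum_aligned (by omega) σ hal]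
    · intro j hj
      rw [← h2 j hj, sum_aligned (by omega) (fun k => σ k * str N M D (k - 1 - j))]
      · refine sum_congr rfl fun i hi => ?_
        rw [mem_range] at hi
        rw [str_window hi hj]
      · intro k hk hk' hne
        rw [hal k hk hk' hne, zero_mul]
  · rintro ⟨s, h1, h2⟩
    set σ : ℕ → ℕ := fun k => if (k / N) % 2 = 0 ∧ k % N = 0 ∧ 1 ≤ k / N / 2 ∧ k / N / 2 ≤ M
      then s (k / N / 2 - 1) else 0 with hσ
    have g1 : ∀ i < M, σ ((2 * i + 2) * N) = s i := by
      intro i hi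
      have e1 : (2 * i + 2) * N / N = 2 * i + 2 := Nat.mul_div_cancel _ (by omega)
      have e2 : (2 * i + 2) * N % N = 0 := Nat.mul_mod_left _ _
      rw [hσ]
      simp only
      rw [e1, e2, if_pos ⟨by omega, rfl, by omega, by omega⟩,
        show (2 * i + 2) / 2 - 1 = i by omega]
    have g2 : ∀ k, N ≤ k → k < (2 * M + 1) * N + 1 → (∀ i < M, k ≠ (2 * i + 2) * N) →
        σ k = 0 := by
      intro k _ _ hne
      rw [hσ]
      simp only
      rw [if_neg]
      rintro ⟨a1, a2, a3, a4⟩
      refine hne (k / N / 2 - 1) (by omega) ?_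
      have a5 : 2 * (k / N / 2 - 1) + 2 = k / N := by omega
      rw [a5]
      have := Nat.div_add_mod k N
      rw [a2, add_zero, Nat.mul_comm] at this
      exact this.symm
    refine ⟨σ, ?_, ?_⟩
    · show ∑ k ∈ Ico N ((2 * M + 1) * N + 1), σ k = S
      rw [sum_aligned (by omega) σ g2, ← h1]
      refine sum_congr rfl fun i hi => ?_
      rw [mem_range] at hi
      exact g1 i hi
    · intro j hj
      change j < N at hj
      show ∑ k ∈ Ico N ((2 * M + 1) * N + 1), σ k * str N M D (k - 1 - j) = T j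
      rw [← h2 j hj, sum_aligned (by omega) (fun k => σ k * str N M D (k - 1 - j))]
      · refine sum_congr rfl fun i hi => ?_
        rw [mem_range] at hi
        rw [str_window hi hj, g1 i hi]
      · intro k hk hk' hne
        rw [g2 k hk hk' hne, zero_mul]

end Pool.Agent.helper506_cf
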